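import Mathlib

set_option autoImplicit false

namespace Kal

open Finset

/-- The slots: `inl o` is the place of the connector of the pair `o`; `inr (i, true)` and
`inr (i, false)` are the places of the two inner vertices of the path for the pair `i`. -/
abbrev Slot (ι : Type) := ι ⊕ ι × Bool

/-- The abstract situation. `W` is the set of free vertices outside the connectors of the critical
set `J`; `sd w i = true` says that `w` is adjacent to the first end of the pair `i`, `sd w i = false`
that it is adjacent to the second one; `con o w` says that `w` connects the ends of the pair `o`.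
`K` is the set of pairs of `J` that need a path with two inner vertices. -/
structure Core (V ι : Type) where
  adj : V → V → Prop
  W : Finset V
  J : Finset ι
  K : Finset ι
  O : Finset ι
  sd : V → ι → Bool
  con : ι → V → Prop
  symm : ∀ a b, adj a b → adj b a
  KJ : K ⊆ J
  anti : ∀ a ∈ W, ∀ b ∈ W, a ≠ b → ¬ adj a b → ∀ i ∈ J, sd a i ≠ sd b i

/-- `M` is a matching between `X` and `Y`. -/
structure IsMatching {V : Type} (adj : V → V → Prop) (X Y : Finset V) (M : Finset (V × V)) :
    Prop where
  mem : ∀ e ∈ M, e.1 ∈ X ∧ e.2 ∈ Y ∧ adj e.1 e.2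
  inj1 : ∀ e ∈ M, ∀ e' ∈ M, e.1 = e'.1 → e = e'
  inj2 : ∀ e ∈ M, ∀ e' ∈ M, e.2 = e'.2 → e = e'

namespace Core

open scoped Classical in
/-- The slots in use. -/
noncomputable def slots {V ι : Type} (C : Core V ι) : Finset (Slot ι) :=
  C.O.disjSum (C.K ×ˢ univ)

/-- `f` fills the slots. -/
structure IsState {V ι : Type} (C : Core V ι) (f : Slot ι → V) : Prop where
  mem : ∀ s ∈ C.slots, f s ∈ C.W
  inj : ∀ s ∈ C.slots, ∀ s' ∈ C.slots, f s = f s' → s = s'
  con : ∀ o ∈ C.O, C.con o (f (Sum.inl o))
  side : ∀ i ∈ C.K, ∀ b, C.sd (f (Sum.inr (i, b))) i = b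

open scoped Classical in
/-- The pairs in trouble. -/
noncomputable def trouble {V ι : Type} (C : Core V ι) (f : Slot ι → V) : Finset ι :=
  C.K.filter fun i => ¬ C.adj (f (Sum.inr (i, true))) (f (Sum.inr (i, false)))

/-- A state with the least number of pairs in trouble. -/
def IsMin {V ι : Type} (C : Core V ι) (f : Slot ι → V) : Prop :=
  C.IsState f ∧ ∀ g, C.IsState g → (C.trouble f).card ≤ (C.trouble g).card

open scoped Classical in
/-- The class of `a`: all free vertices whose sides are those of `a`, or always the other ones. -/
noncomputable def cls {V ι : Type} (C : Core V ι) (a : V) : Finset V :=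
  C.W.filter fun w => (∀ i ∈ C.J, C.sd w i = C.sd a i) ∨ ∀ i ∈ C.J, C.sd w i ≠ C.sd a i

open scoped Classical in
/-- The vertices of the class of `a` on side `b` of the pair `i`. -/
noncomputable def part {V ι : Type} (C : Core V ι) (a : V) (i : ι) (b : Bool) : Finset V :=
  (C.cls a).filter fun w => C.sd w i = b

open scoped Classical in
/-- The vertices in use. -/
noncomputable def used {V ι : Type} (C : Core V ι) (f : Slot ι → V) : Finset V :=
  C.slots.image f

open scoped Classical in
/-- The pairs with both places in the class of `a`. -/
noncomputable def inside {V ι : Type} (C : Core V ι) (a : V) (f : Slot ι → V) : Finset ι :=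
  C.K.filter fun i => ∀ b, f (Sum.inr (i, b)) ∈ C.cls a

open scoped Classical in
/-- The pairs with no place in the class of `a`. -/
noncomputable def outside {V ι : Type} (C : Core V ι) (a : V) (f : Slot ι → V) : Finset ι :=
  C.K.filter fun i => ∀ b, f (Sum.inr (i, b)) ∉ C.cls a

open scoped Classical in
/-- The pairs of `O` whose connector is in `D`. -/
noncomputable def hits {V ι : Type} (C : Core V ι) (D : Finset V) (f : Slot ι → V) : Finset ι :=
  C.O.filter fun o => f (Sum.inl o) ∈ D

end Core

open scoped Classical in
/-- The vertices of the edges of `M`. -/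
noncomputable def ends {V : Type} (M : Finset (V × V)) : Finset V :=
  M.image Prod.fst ∪ M.image Prod.snd

end Kal
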