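import Pool.Agent.Kal.Core
import Pool.Agent.Kcb.Sep
import Pool.Agent.C1E.Konig

set_option autoImplicit false

namespace Kal

open Finset Kcg

/-- ROW hin. Hall's theorem inside a critical set `J`: the elements of the union have different
members of `J` as owners. (`Finset.all_card_le_biUnion_card_iff_exists_injective` for the elements `w`
of `J.biUnion N` with the sets `J.filter (w ∈ N ·)`. For a set `D` of such `w` let `J'` be the set of
`i ∈ J` with `Disjoint (N i) D`: `J'.biUnion N ⊆ J.biUnion N \ D`, so `h J'` gives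
`D.card ≤ J.card - J'.card`.) -/
theorem hall_in {V ι : Type} [DecidableEq V] [DecidableEq ι] [Nonempty ι] (N : ι → Finset V)
    (J : Finset ι)
    (h : ∀ J' ⊆ J, J'.card + (J.biUnion N).card ≤ J.card + (J'.biUnion N).card) :
    ∃ chi : V → ι, (∀ w ∈ J.biUnion N, chi w ∈ J ∧ w ∈ N (chi w)) ∧
      ∀ w ∈ J.biUnion N, ∀ w' ∈ J.biUnion N, chi w = chi w' → w = w' := by
  classical
  set U : Finset V := J.biUnion N with hU
  let t : {w : V // w ∈ U} → Finset ι := fun w => J.filter (fun i => (w : V) ∈ N i)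
  have hall : ∀ s : Finset {w : V // w ∈ U}, s.card ≤ (s.biUnion t).card := by
    intro s
    set D : Finset V := s.map (Function.Embedding.subtype _) with hD
    have hDc : D.card = s.card := Finset.card_map _
    have hDU : D ⊆ U := by
      intro w hw
      obtain ⟨v, _, hv⟩ := Finset.mem_map.1 hw
      rw [← hv]
      exact v.2
    set J' : Finset ι := J.filter (fun i => Disjoint (N i) D) with hJ'
    have h1 : J \ J' ⊆ s.biUnion t := by
      intro i hi
      obtain ⟨hiJ, hi'⟩ := Finset.mem_sdiff.1 hi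
      have h2 : ¬ Disjoint (N i) D := fun hd => hi' (Finset.mem_filter.2 ⟨hiJ, hd⟩)
      obtain ⟨w, hw1, hw2⟩ := Finset.not_disjoint_iff.1 h2
      obtain ⟨v, hvs, hv⟩ := Finset.mem_map.1 hw2
      have hv' : (v : V) = w := hv
      refine Finset.mem_biUnion.2 ⟨v, hvs, Finset.mem_filter.2 ⟨hiJ, ?_⟩⟩
      rw [hv']
      exact hw1
    have h3 : J'.biUnion N ⊆ U \ D := by
      intro w hw
      obtain ⟨i, hi, hwi⟩ := Finset.mem_biUnion.1 hw
      obtain ⟨hiJ, hid⟩ := Finset.mem_filter.1 hi
      exact Finset.mem_sdiff.2 ⟨Finset.mem_biUnion.2 ⟨i, hiJ, hwi⟩, Finset.disjoint_left.1 hid hwi⟩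
    have h4 := h J' (Finset.filter_subset _ _)
    have h5 := Finset.card_le_card h1
    have h6 := Finset.card_le_card h3
    have h7 := Finset.card_sdiff_add_card_eq_card hDU
    have h8 := Finset.card_sdiff_add_card_eq_card (Finset.filter_subset (fun i => Disjoint (N i) D) J)
    have h9 : J' = J.filter (fun i => Disjoint (N i) D) := hJ'
    rw [← h9] at h8
    omega
  obtain ⟨f, hf1, hf2⟩ := (Finset.all_card_le_biUnion_card_iff_exists_injective t).1 hall
  refine ⟨fun w => if hw : w ∈ U then f ⟨w, hw⟩ else Classical.arbitrary ι, ?_, ?_⟩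
  · intro w hw
    simp only [dif_pos hw]
    exact Finset.mem_filter.1 (hf2 ⟨w, hw⟩)
  · intro w hw w' hw' he
    simp only [dif_pos hw, dif_pos hw'] at he
    exact congrArg Subtype.val (hf1 he)

/-- ROW hou. Hall's theorem outside a critical set: the members of `D0` have different
representatives outside the union over `J`. (Sets `N o \ J.biUnion N` for `o ∈ D0`.) -/
theorem hall_out {V ι : Type} [DecidableEq V] [DecidableEq ι] [Nonempty V] (N : ι → Finset V)
    (J D0 : Finset ι) (hd : Disjoint J D0)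
    (h : ∀ D ⊆ D0, (J ∪ D).card + (J.biUnion N).card ≤ J.card + ((J ∪ D).biUnion N).card) :
    ∃ psi : ι → V, (∀ o ∈ D0, psi o ∈ N o ∧ psi o ∉ J.biUnion N) ∧
      ∀ o ∈ D0, ∀ o' ∈ D0, psi o = psi o' → o = o' := by
  classical
  set U : Finset V := J.biUnion N with hU
  let t : {o : ι // o ∈ D0} → Finset V := fun o => N o \ U
  have hall : ∀ s : Finset {o : ι // o ∈ D0}, s.card ≤ (s.biUnion t).card := by
    intro s
    set D : Finset ι := s.map (Function.Embedding.subtype _) with hD
    have hDc : D.card = s.card := Finset.card_map _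
    have hDD : D ⊆ D0 := by
      intro w hw
      obtain ⟨v, _, hv⟩ := Finset.mem_map.1 hw
      rw [← hv]
      exact v.2
    have h1 : (J ∪ D).card = J.card + D.card :=
      Finset.card_union_of_disjoint (Finset.disjoint_of_subset_right hDD hd)
    have h2 : (J ∪ D).biUnion N ⊆ U ∪ s.biUnion t := by
      intro w hw
      obtain ⟨i, hi, hwi⟩ := Finset.mem_biUnion.1 hw
      by_cases hwU : w ∈ U
      · exact Finset.mem_union_left _ hwU
      · rcases Finset.mem_union.1 hi with hiJ | hiD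
        · exact Finset.mem_union_left _ (Finset.mem_biUnion.2 ⟨i, hiJ, hwi⟩)
        · obtain ⟨v, hvs, hv⟩ := Finset.mem_map.1 hiD
          have hv' : (v : ι) = i := hv
          refine Finset.mem_union_right _ (Finset.mem_biUnion.2 ⟨v, hvs, Finset.mem_sdiff.2 ⟨?_, hwU⟩⟩)
          rw [hv']
          exact hwi
    have h3 := Finset.card_le_card h2
    have h4 := Finset.card_union_le U (s.biUnion t)
    have h5 := h D hDD
    omega
  obtain ⟨f, hf1, hf2⟩ := (Finset.all_card_le_biUnion_card_iff_exists_injective t).1 hall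
  refine ⟨fun o => if ho : o ∈ D0 then f ⟨o, ho⟩ else Classical.arbitrary V, ?_, ?_⟩
  · intro o ho
    simp only [dif_pos ho]
    exact Finset.mem_sdiff.1 (hf2 ⟨o, ho⟩)
  · intro o ho o' ho' he
    simp only [dif_pos ho, dif_pos ho'] at he
    exact congrArg Subtype.val (hf1 he)

theorem exists_critical {V ι : Type} [DecidableEq V] [DecidableEq ι] [Nonempty V] [Nonempty ι]
    (I : Finset ι) (N : ι → Finset V) :
    ∃ J ⊆ I, (∃ chi : V → ι, (∀ w ∈ J.biUnion N, chi w ∈ J ∧ w ∈ N (chi w)) ∧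
        ∀ w ∈ J.biUnion N, ∀ w' ∈ J.biUnion N, chi w = chi w' → w = w') ∧
      ∃ psi : ι → V, (∀ o ∈ I \ J, psi o ∈ N o ∧ psi o ∉ J.biUnion N) ∧
        ∀ o ∈ I \ J, ∀ o' ∈ I \ J, psi o = psi o' → o = o' := by
  obtain ⟨J, hJ, hmax⟩ := exists_max_image I.powerset
    (fun J => (J.card : ℤ) - ((J.biUnion N).card : ℤ)) ⟨∅, empty_mem_powerset I⟩
  rw [mem_powerset] at hJ
  refine ⟨J, hJ, hall_in N J ?_, hall_out N J (I \ J) disjoint_sdiff ?_⟩
  · intro J' hJ'
    have := hmax J' (mem_powerset.2 (hJ'.trans hJ))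
    omega
  · intro D hD
    have := hmax (J ∪ D) (mem_powerset.2 (union_subset hJ (hD.trans sdiff_subset)))
    omega

/-- ROW cut. Menger with König: `x` sees nothing of `Y`, `y` nothing of `X`. If there were only
`N` edges in every matching between `X` and `Y` (`C1E.konig` with `r a b := a ∈ X ∧ b ∈ Y ∧ G.Adj a b`)
take a cover `C`, `D` with at most `N` vertices and apply `Kcb.sep` to `insert x (X \ C)` and
`insert y (Y \ D)`. -/
theorem cut_matching {V : Type} [Fintype V] [DecidableEq V] {G : SimpleGraph V} {m : ℕ}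
    (hG : MConn m G) (X Y : Finset V) (x y : V) (hXY : Disjoint X Y) (hxX : x ∉ X) (hxY : x ∉ Y)
    (hyX : y ∉ X) (hyY : y ∉ Y) (hxy : x ≠ y) (hadj : ¬ G.Adj x y)
    (h1 : ∀ b ∈ Y, ¬ G.Adj x b) (h2 : ∀ a ∈ X, ¬ G.Adj a y) :
    ∃ M, IsMatching G.Adj X Y M ∧ m + 2 + X.card + Y.card ≤ Fintype.card V + M.card := by
  by_contra hno
  push Not at hno
  obtain ⟨C, D, hcov, hCD⟩ := C1E.konig (fun a b : V => a ∈ X ∧ b ∈ Y ∧ G.Adj a b)
    (m + 2 + X.card + Y.card - Fintype.card V - 1) (fun M hM hM1 hM2 => by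
      have := hno M ⟨hM, hM1, hM2⟩
      omega)
  have h0 := hno ∅ ⟨by simp, by simp, by simp⟩
  rw [card_empty] at h0
  have hsep := Kcb.sep hG (insert x (X \ C)) (insert y (Y \ D)) (insert_nonempty _ _)
    (insert_nonempty _ _) (by
      rw [disjoint_left]
      intro z hz hz'
      rw [mem_insert, mem_sdiff] at hz hz'
      rcases hz with rfl | hz
      · rcases hz' with hz' | hz'
        · exact hxy hz'
        · exact hxY hz'.1
      · rcases hz' with rfl | hz'
        · exact hyX hz.1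
        · exact disjoint_left.1 hXY hz.1 hz'.1) (by
      intro a ha b hb hab
      rw [mem_insert, mem_sdiff] at ha hb
      rcases ha with rfl | ha
      · rcases hb with rfl | hb
        · exact hadj hab
        · exact h1 b hb.1 hab
      · rcases hb with rfl | hb
        · exact h2 a ha.1 hab
        · rcases hcov a b ⟨ha.1, hb.1, hab⟩ with h | h
          · exact ha.2 h
          · exact hb.2 h)
  rw [card_insert_of_notMem (fun h => hxX (mem_sdiff.1 h).1),
    card_insert_of_notMem (fun h => hyY (mem_sdiff.1 h).1)] at hsep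
  have h3 : X.card ≤ (X \ C).card + C.card := by
    have := le_card_sdiff C X
    omega
  have h4 : Y.card ≤ (Y \ D).card + D.card := by
    have := le_card_sdiff D Y
    omega
  omega

private theorem gam_ends {V : Type} (M : Finset (V × V)) (w : V) :
    w ∈ ends M ↔ (∃ e ∈ M, e.1 = w) ∨ ∃ e ∈ M, e.2 = w := by
  classical
  rw [ends, mem_union, mem_image, mem_image]

theorem split_matching {V : Type} [DecidableEq V] (adj : V → V → Prop) (X Y : Finset V) (x y : V)
    (hx : x ∉ X) (hy : y ∉ Y) (hXY : Disjoint X Y) (M : Finset (V × V))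
    (hM : IsMatching adj (insert x X) (insert y Y) M) :
    (∃ N, IsMatching adj X Y N ∧ M.card ≤ N.card + 1) ∨
    (∃ N p q, IsMatching adj X Y N ∧ p ∈ X ∧ q ∈ Y ∧ p ∉ ends N ∧ q ∉ ends N ∧ adj x q ∧
      adj p y ∧ M.card ≤ N.card + 2) := by
  classical
  obtain ⟨N, hN⟩ : ∃ N, N = M.filter (fun e => e.1 ≠ x ∧ e.2 ≠ y) := ⟨_, rfl⟩
  have hNM : ∀ e, e ∈ N ↔ e ∈ M ∧ e.1 ≠ x ∧ e.2 ≠ y := by
    intro e
    rw [hN, mem_filter]
  have hNm : IsMatching adj X Y N := by
    refine ⟨fun e he => ?_, fun e he e' he' h => ?_, fun e he e' he' h => ?_⟩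
    · obtain ⟨h1, h2, h3⟩ := (hNM e).1 he
      obtain ⟨h4, h5, h6⟩ := hM.mem e h1
      exact ⟨(mem_insert.1 h4).resolve_left h2, (mem_insert.1 h5).resolve_left h3, h6⟩
    · exact hM.inj1 e ((hNM e).1 he).1 e' ((hNM e').1 he').1 h
    · exact hM.inj2 e ((hNM e).1 he).1 e' ((hNM e').1 he').1 h
  have hxc : (M.filter (fun e => e.1 = x)).card ≤ 1 := by
    rw [card_le_one]
    intro e he e' he'
    rw [mem_filter] at he he'
    exact hM.inj1 e he.1 e' he'.1 (he.2.trans he'.2.symm)
  have hyc : (M.filter (fun e => e.2 = y)).card ≤ 1 := by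
    rw [card_le_one]
    intro e he e' he'
    rw [mem_filter] at he he'
    exact hM.inj2 e he.1 e' he'.1 (he.2.trans he'.2.symm)
  have hsub : M ⊆ N ∪ (M.filter (fun e => e.1 = x) ∪ M.filter (fun e => e.2 = y)) := by
    intro e he
    rw [mem_union, mem_union, mem_filter, mem_filter, hNM]
    by_cases h1 : e.1 = x
    · exact Or.inr (Or.inl ⟨he, h1⟩)
    · by_cases h2 : e.2 = y
      · exact Or.inr (Or.inr ⟨he, h2⟩)
      · exact Or.inl ⟨he, h1, h2⟩
  have hc1 := card_le_card hsub
  have hc2 := card_union_le N (M.filter (fun e => e.1 = x) ∪ M.filter (fun e => e.2 = y))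
  have hc3 := card_union_le (M.filter (fun e => e.1 = x)) (M.filter (fun e => e.2 = y))
  by_cases hB : (M.filter (fun e => e.1 = x) ∪ M.filter (fun e => e.2 = y)).card ≤ 1
  · exact Or.inl ⟨N, hNm, by omega⟩
  right
  have hx1 : (M.filter (fun e => e.1 = x)).Nonempty := by
    rw [nonempty_iff_ne_empty]
    intro h
    rw [h, empty_union] at hB
    exact hB hyc
  have hy1 : (M.filter (fun e => e.2 = y)).Nonempty := by
    rw [nonempty_iff_ne_empty]
    intro h
    rw [h, union_empty] at hB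
    exact hB hxc
  obtain ⟨e, he⟩ := hx1
  obtain ⟨e', he'⟩ := hy1
  obtain ⟨heM, hex⟩ := mem_filter.1 he
  obtain ⟨heM', hey⟩ := mem_filter.1 he'
  have hne : e ≠ e' := by
    rintro rfl
    apply hB
    rw [card_le_one]
    intro d hd d' hd'
    have key : ∀ d, d ∈ M.filter (fun e => e.1 = x) ∪ M.filter (fun e => e.2 = y) → d = e := by
      intro d hd
      rcases mem_union.1 hd with h | h
      · obtain ⟨h1, h2⟩ := mem_filter.1 h
        exact hM.inj1 d h1 e heM (h2.trans hex.symm)
      · obtain ⟨h1, h2⟩ := mem_filter.1 h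
        exact hM.inj2 d h1 e heM (h2.trans hey.symm)
    rw [key d hd, key d' hd']
  have hq : e.2 ∈ Y := by
    refine (mem_insert.1 (hM.mem e heM).2.1).resolve_left ?_
    intro h
    exact hne (hM.inj2 e heM e' heM' (h.trans hey.symm))
  have hp : e'.1 ∈ X := by
    refine (mem_insert.1 (hM.mem e' heM').1).resolve_left ?_
    intro h
    exact hne (hM.inj1 e heM e' heM' (hex.trans h.symm))
  refine ⟨N, e'.1, e.2, hNm, hp, hq, ?_, ?_, ?_, ?_, by omega⟩
  · intro h
    rw [gam_ends] at h
    rcases h with ⟨d, hd, hd'⟩ | ⟨d, hd, hd'⟩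
    · have h1 := hM.inj1 d ((hNM d).1 hd).1 e' heM' hd'
      rw [h1] at hd
      exact ((hNM e').1 hd).2.2 hey
    · have h1 := (hNm.mem d hd).2.1
      rw [hd'] at h1
      exact Finset.disjoint_left.1 hXY hp h1
  · intro h
    rw [gam_ends] at h
    rcases h with ⟨d, hd, hd'⟩ | ⟨d, hd, hd'⟩
    · have h1 := (hNm.mem d hd).1
      rw [hd'] at h1
      exact Finset.disjoint_left.1 hXY h1 hq
    · have h1 := hM.inj2 d ((hNM d).1 hd).1 e heM hd'
      rw [h1] at hd
      exact ((hNM e).1 hd).2.1 hex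
  · have := (hM.mem e heM).2.2
    rwa [hex] at this
  · have := (hM.mem e' heM').2.2
    rwa [hey] at this

/-- The first state (Hall). -/
theorem Core.exists_state {V ι : Type} (C : Core V ι) (psi : ι → V)
    (h1 : ∀ o ∈ C.O, psi o ∈ C.W ∧ C.con o (psi o))
    (h2 : ∀ o ∈ C.O, ∀ o' ∈ C.O, psi o = psi o' → o = o')
    (h3 : ∀ i ∈ C.K, ∀ b, C.O.card + C.K.card ≤ (C.W.filter fun w => C.sd w i = b).card) :
    ∃ f, C.IsState f := by
  classical
  have hsl : ∀ o, (Sum.inl o : Slot ι) ∈ C.slots ↔ o ∈ C.O := by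
    intro o
    simp [slots]
  have hsr : ∀ p, (Sum.inr p : Slot ι) ∈ C.slots ↔ p.1 ∈ C.K := by
    rintro ⟨i, b⟩
    simp [slots]
  have hOp : (C.O.image psi).card = C.O.card :=
    card_image_of_injOn (fun o ho o' ho' h => h2 o ho o' ho' h)
  let t : {p : ι × Bool // p.1 ∈ C.K} → Finset V := fun p =>
    (C.W.filter fun w => C.sd w p.1.1 = p.1.2) \ C.O.image psi
  have hall : ∀ s : Finset {p : ι × Bool // p.1 ∈ C.K}, s.card ≤ (s.biUnion t).card := by
    intro s
    by_cases hboth : ∃ i, ∃ h : i ∈ C.K, (⟨(i, true), h⟩ : {p : ι × Bool // p.1 ∈ C.K}) ∈ s ∧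
        (⟨(i, false), h⟩ : {p : ι × Bool // p.1 ∈ C.K}) ∈ s
    · obtain ⟨i, hi, hs1, hs2⟩ := hboth
      have e1 : C.W \ C.O.image psi ⊆ s.biUnion t := by
        intro w hw
        obtain ⟨hw1, hw2⟩ := mem_sdiff.1 hw
        cases hb : C.sd w i with
        | true => exact mem_biUnion.2 ⟨_, hs1, mem_sdiff.2 ⟨mem_filter.2 ⟨hw1, hb⟩, hw2⟩⟩
        | false => exact mem_biUnion.2 ⟨_, hs2, mem_sdiff.2 ⟨mem_filter.2 ⟨hw1, hb⟩, hw2⟩⟩
      have e2 := card_le_card e1
      have e3 := le_card_sdiff (C.O.image psi) C.W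
      have e4 : s.card ≤ 2 * C.K.card := by
        have e5 : s.card ≤ (C.K ×ˢ (univ : Finset Bool)).card :=
          card_le_card_of_injOn (fun p => p.1)
            (fun p _ => by
              simp only [coe_product, coe_univ, Set.mem_prod, mem_coe, Set.mem_univ, and_true]
              exact p.2)
            (fun p _ p' _ h => Subtype.ext h)
        rw [card_product, card_univ, Fintype.card_bool] at e5
        omega
      have e6 : (C.W.filter fun w => C.sd w i = true).card +
          (C.W.filter fun w => C.sd w i = false).card = C.W.card := by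
        have h := card_filter_add_card_filter_not (s := C.W) (fun w => C.sd w i = true)
        rw [← h]
        congr 2
        ext w
        simp
      have e7 := h3 i hi true
      have e8 := h3 i hi false
      omega
    · have e1 : s.card ≤ C.K.card := by
        refine card_le_card_of_injOn (fun p => p.1.1) (fun p _ => p.2) ?_
        rintro ⟨⟨i, b⟩, hi⟩ hp ⟨⟨i', b'⟩, hi'⟩ hp' h
        have h' : i = i' := h
        subst h'
        by_cases hbb : b = b'
        · subst hbb
          rfl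
        · exfalso
          apply hboth
          refine ⟨i, hi, ?_⟩
          cases b <;> cases b'
          · exact absurd rfl hbb
          · exact ⟨hp', hp⟩
          · exact ⟨hp, hp'⟩
          · exact absurd rfl hbb
      rcases s.eq_empty_or_nonempty with rfl | ⟨p, hp⟩
      · simp
      · have e2 : t p ⊆ s.biUnion t := subset_biUnion_of_mem t hp
        have e3 := card_le_card e2
        have e4 := le_card_sdiff (C.O.image psi) (C.W.filter fun w => C.sd w p.1.1 = p.1.2)
        have e5 := h3 p.1.1 p.2 p.1.2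
        have e6 : (t p).card = ((C.W.filter fun w => C.sd w p.1.1 = p.1.2) \
          C.O.image psi).card := rfl
        omega
  obtain ⟨g, hg, hgt⟩ := (all_card_le_biUnion_card_iff_exists_injective t).1 hall
  have hgt' : ∀ p, g p ∈ C.W ∧ C.sd (g p) p.1.1 = p.1.2 ∧ ∀ o ∈ C.O, psi o ≠ g p := by
    intro p
    obtain ⟨h4, h5⟩ := mem_sdiff.1 (hgt p)
    obtain ⟨h6, h7⟩ := mem_filter.1 h4
    exact ⟨h6, h7, fun o ho h => h5 (mem_image.2 ⟨o, ho, h⟩)⟩
  obtain ⟨f, hf1, hf2⟩ : ∃ f : Slot ι → V, (∀ o, f (Sum.inl o) = psi o) ∧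
      ∀ (p : ι × Bool) (h : p.1 ∈ C.K), f (Sum.inr p) = g ⟨p, h⟩ := by
    refine ⟨Sum.elim psi (fun p => if h : p.1 ∈ C.K then g ⟨p, h⟩ else psi p.1), fun _ => rfl,
      fun p h => ?_⟩
    show (if h : p.1 ∈ C.K then g ⟨p, h⟩ else psi p.1) = g ⟨p, h⟩
    exact dif_pos h
  refine ⟨f, ?_, ?_, ?_, ?_⟩
  · rintro (o | p) hs
    · rw [hf1]
      exact (h1 o ((hsl o).1 hs)).1
    · rw [hf2 p ((hsr p).1 hs)]
      exact (hgt' _).1
  · rintro (o | p) hs (o' | p') hs' he
    · rw [hf1, hf1] at he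
      rw [h2 o ((hsl o).1 hs) o' ((hsl o').1 hs') he]
    · rw [hf1, hf2 p' ((hsr p').1 hs')] at he
      exact absurd he ((hgt' _).2.2 o ((hsl o).1 hs))
    · rw [hf1, hf2 p ((hsr p).1 hs)] at he
      exact absurd he.symm ((hgt' _).2.2 o' ((hsl o').1 hs'))
    · rw [hf2 p ((hsr p).1 hs), hf2 p' ((hsr p').1 hs')] at he
      have h6 : p = p' := congrArg Subtype.val (hg he)
      rw [h6]
  · intro o ho
    rw [hf1]
    exact (h1 o ho).2
  · intro i hi b
    rw [hf2 (i, b) hi]
    exact (hgt' _).2.1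

end Kal
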