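import Pool.Agent.Kal.Reassign
import Pool.Agent.Kal.Sets
import Pool.Agent.Kcb.Cond
import Pool.Agent.Kcb.Cyc

set_option autoImplicit false

namespace Kal

open Finset Kcg

private theorem siz1_val {k : ℕ} [NeZero k] (i : Fin k) (hk : 5 ≤ k) :
    ((i + 1 : Fin k) : ℕ) = if (i : ℕ) + 1 = k then 0 else (i : ℕ) + 1 := by
  have h3 := i.isLt
  rw [Fin.val_add, Fin.val_one', Nat.mod_eq_of_lt (by omega : 1 < k)]
  split_ifs with h
  · rw [h, Nat.mod_self]
  · rw [Nat.mod_eq_of_lt (by omega)]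

private theorem siz1_one {k : ℕ} [NeZero k] (hk : 5 ≤ k) (i : Fin k) : i + 1 ≠ i := by
  intro h1
  have h2 := congrArg Fin.val h1
  rw [siz1_val i hk] at h2
  have := i.isLt
  split_ifs at h2 <;> omega

private theorem siz1_two {k : ℕ} [NeZero k] (hk : 5 ≤ k) (i : Fin k) : i + 1 + 1 ≠ i := by
  intro h1
  have h2 := congrArg Fin.val h1
  rw [siz1_val _ hk, siz1_val i hk] at h2
  have := i.isLt
  split_ifs at h2 <;> omega

/-- The sizes of both sides with the bad neighbours of the two ends. -/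
private theorem siz1_sides {V : Type} [Fintype V] [DecidableEq V] {G : SimpleGraph V} {k : ℕ}
    (hk : 5 ≤ k) [NeZero k] (hG : MConn (2 * k - 3) G) (v : Fin k → V)
    (hv : Function.Injective v) (I : Finset (Fin k))
    (hI : ∀ i, i ∈ I ↔ ¬ G.Adj (v i) (v (i + 1))) (W E : Finset V)
    (hcov : ∀ x, x ∈ W ∨ x ∈ E ∨ ∃ j, x = v j) (i' : Fin k) (hi : i' + 1 ∈ I) (sd : V → Bool)
    (hsd : ∀ w ∈ W, (sd w = true ↔ G.Adj w (v (i' + 1))) ∧
      (sd w = false ↔ G.Adj w (v (i' + 1 + 1)))) :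
    (k ≤ E.card + (W.filter fun w => sd w = true).card + 1 ∧
      (i' ∈ I → k ≤ E.card + (W.filter fun w => sd w = true).card)) ∧
    (k ≤ E.card + (W.filter fun w => sd w = false).card + 1 ∧
      (i' + 1 + 1 ∈ I → k ≤ E.card + (W.filter fun w => sd w = false).card)) := by
  classical
  have h0 := (hI _).1 hi
  have e1 : (W.filter fun w => sd w = true) = W.filter (fun z => G.Adj (v (i' + 1)) z) := by
    ext w
    rw [mem_filter, mem_filter]
    refine and_congr_right fun hw => ?_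
    rw [(hsd w hw).1]
    exact ⟨fun h => h.symm, fun h => h.symm⟩
  have e2 : (W.filter fun w => sd w = false) = W.filter (fun z => G.Adj (v (i' + 1 + 1)) z) := by
    ext w
    rw [mem_filter, mem_filter]
    refine and_congr_right fun hw => ?_
    rw [(hsd w hw).2]
    exact ⟨fun h => h.symm, fun h => h.symm⟩
  rw [e1, e2]
  refine ⟨⟨?_, fun hi' => ?_⟩, ?_, fun hi2 => ?_⟩
  · have h := Kcb.deg_bound hG v hv W E hcov (i' + 1) {i' + 1 + 1} (by
      intro j hj
      rw [mem_singleton] at hj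
      subst hj
      exact ⟨siz1_one hk _, h0⟩)
    rw [card_singleton] at h
    omega
  · have h := Kcb.deg_bound hG v hv W E hcov (i' + 1) {i' + 1 + 1, i'} (by
      intro j hj
      rw [mem_insert, mem_singleton] at hj
      rcases hj with rfl | rfl
      · exact ⟨siz1_one hk _, h0⟩
      · exact ⟨fun h => siz1_one hk _ h.symm, fun h => (hI _).1 hi' h.symm⟩)
    rw [card_pair (siz1_two hk i')] at h
    omega
  · have h := Kcb.deg_bound hG v hv W E hcov (i' + 1 + 1) {i' + 1} (by
      intro j hj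
      rw [mem_singleton] at hj
      subst hj
      exact ⟨fun h => siz1_one hk _ h.symm, fun h => h0 h.symm⟩)
    rw [card_singleton] at h
    omega
  · have h := Kcb.deg_bound hG v hv W E hcov (i' + 1 + 1) {i' + 1, i' + 1 + 1 + 1} (by
      intro j hj
      rw [mem_insert, mem_singleton] at hj
      rcases hj with rfl | rfl
      · exact ⟨fun h => siz1_one hk _ h.symm, fun h => h0 h.symm⟩
      · exact ⟨siz1_one hk _, (hI _).1 hi2⟩)
    rw [card_pair (fun h => siz1_two hk (i' + 1) h.symm)] at h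
    omega

/-- Sizes from degrees: one side. -/
theorem side_card {V : Type} [Fintype V] [DecidableEq V] {G : SimpleGraph V} {k : ℕ}
    (hk : 5 ≤ k) [NeZero k] (hG : MConn (2 * k - 3) G) (v : Fin k → V)
    (hv : Function.Injective v) (I : Finset (Fin k))
    (hI : ∀ i, i ∈ I ↔ ¬ G.Adj (v i) (v (i + 1))) (W E : Finset V)
    (hcov : ∀ x, x ∈ W ∨ x ∈ E ∨ ∃ j, x = v j) (i : Fin k) (hi : i ∈ I) (sd : V → Bool)
    (hsd : ∀ w ∈ W, (sd w = true ↔ G.Adj w (v i)) ∧ (sd w = false ↔ G.Adj w (v (i + 1))))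
    (b : Bool) : I.card ≤ E.card + (W.filter fun w => sd w = b).card := by
  obtain ⟨i', rfl⟩ : ∃ i' : Fin k, i' + 1 = i := ⟨i - 1, sub_add_cancel i 1⟩
  obtain ⟨⟨h1, h2⟩, h3, h4⟩ := siz1_sides hk hG v hv I hI W E hcov i' hi sd hsd
  have hIk : I.card ≤ k := by
    have := card_le_univ I
    rwa [Fintype.card_fin] at this
  by_cases hIc : I.card = k
  · have hIu : I = univ := by
      rw [← card_eq_iff_eq_univ, hIc, Fintype.card_fin]
    cases b with
    | true =>
      have := h2 (by rw [hIu]; exact mem_univ _)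
      omega
    | false =>
      have := h4 (by rw [hIu]; exact mem_univ _)
      omega
  · cases b with
    | true => omega
    | false => omega

/-- Sizes from degrees: the whole of `W`. -/
theorem whole_card {V : Type} [Fintype V] [DecidableEq V] {G : SimpleGraph V} {k : ℕ}
    (hk : 5 ≤ k) [NeZero k] (hG : MConn (2 * k - 3) G) (v : Fin k → V)
    (hv : Function.Injective v) (I : Finset (Fin k))
    (hI : ∀ i, i ∈ I ↔ ¬ G.Adj (v i) (v (i + 1))) (W E : Finset V)
    (hcov : ∀ x, x ∈ W ∨ x ∈ E ∨ ∃ j, x = v j) (i : Fin k) (hi : i ∈ I) (sd : V → Bool)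
    (hsd : ∀ w ∈ W, (sd w = true ↔ G.Adj w (v i)) ∧ (sd w = false ↔ G.Adj w (v (i + 1)))) :
    2 * k ≤ W.card + 2 * E.card ∨ 2 * I.card + 1 ≤ W.card + 2 * E.card := by
  obtain ⟨i', rfl⟩ : ∃ i' : Fin k, i' + 1 = i := ⟨i - 1, sub_add_cancel i 1⟩
  obtain ⟨⟨h1, h2⟩, h3, h4⟩ := siz1_sides hk hG v hv I hI W E hcov i' hi sd hsd
  have hPQ : (W.filter fun w => sd w = true).card + (W.filter fun w => sd w = false).card =
      W.card := by
    have h := card_filter_add_card_filter_not (s := W) (fun w => sd w = true)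
    rw [← h]
    congr 2
    ext w
    simp
  have hc1 : ∀ j : Fin k, j ∉ I → I.card + 1 ≤ k := by
    intro j hj
    have h := card_le_univ (insert j I)
    rwa [card_insert_of_notMem hj, Fintype.card_fin] at h
  by_cases hi1 : i' ∈ I
  · by_cases hi2 : i' + 1 + 1 ∈ I
    · have := h2 hi1
      have := h4 hi2
      omega
    · have := h2 hi1
      have := hc1 _ hi2
      omega
  · by_cases hi2 : i' + 1 + 1 ∈ I
    · have := h4 hi2
      have := hc1 _ hi1
      omega
    · have h := card_le_univ (insert i' (insert (i' + 1 + 1) I))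
      rw [card_insert_of_notMem (by
        rw [mem_insert]
        rintro (h | h)
        · exact siz1_two hk i' h.symm
        · exact hi1 h), card_insert_of_notMem hi2, Fintype.card_fin] at h
      omega

/-- ROW pth. The lists `P i`: `[z i]` for `i ∈ Z`, `[x i, y i]` for `i ∈ K`, otherwise `[]`. -/
theorem exists_paths {V : Type} (G : SimpleGraph V) {k : ℕ} [NeZero k] (v : Fin k → V)
    (Z K : Finset (Fin k)) (hZK : Disjoint Z K) (z x y : Fin k → V)
    (hadj : ∀ i, i ∉ Z → i ∉ K → G.Adj (v i) (v (i + 1)))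
    (hz : ∀ i ∈ Z, G.Adj (v i) (z i) ∧ G.Adj (z i) (v (i + 1)) ∧ ∀ j, z i ≠ v j)
    (hxy : ∀ i ∈ K, G.Adj (v i) (x i) ∧ G.Adj (x i) (y i) ∧ G.Adj (y i) (v (i + 1)) ∧
      ∀ j, x i ≠ v j ∧ y i ≠ v j)
    (izz : ∀ i ∈ Z, ∀ j ∈ Z, z i = z j → i = j) (ixx : ∀ i ∈ K, ∀ j ∈ K, x i = x j → i = j)
    (iyy : ∀ i ∈ K, ∀ j ∈ K, y i = y j → i = j) (ixy : ∀ i ∈ K, ∀ j ∈ K, x i ≠ y j)
    (izx : ∀ i ∈ Z, ∀ j ∈ K, z i ≠ x j ∧ z i ≠ y j) :
    ∃ P : Fin k → List V, (∀ i, (v i :: (P i ++ [v (i + 1)])).IsChain G.Adj) ∧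
      (∀ i, (P i).Nodup) ∧ (∀ i j, i ≠ j → ∀ w ∈ P i, w ∉ P j) ∧
      (∀ i, ∀ w ∈ P i, ∀ j, w ≠ v j) := by
  classical
  have hmem : ∀ i w, w ∈ (if i ∈ Z then [z i] else if i ∈ K then [x i, y i] else []) →
      (i ∈ Z ∧ w = z i) ∨ (i ∈ K ∧ (w = x i ∨ w = y i)) := by
    intro i w hw
    by_cases h1 : i ∈ Z
    · rw [if_pos h1, List.mem_singleton] at hw
      exact Or.inl ⟨h1, hw⟩
    · rw [if_neg h1] at hw
      by_cases h2 : i ∈ K
      · rw [if_pos h2, List.mem_cons, List.mem_singleton] at hw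
        exact Or.inr ⟨h2, hw⟩
      · rw [if_neg h2] at hw
        exact absurd hw List.not_mem_nil
  refine ⟨fun i => if i ∈ Z then [z i] else if i ∈ K then [x i, y i] else [], ?_, ?_, ?_, ?_⟩
  · intro i
    by_cases h1 : i ∈ Z
    · simp only [h1, if_true, List.cons_append, List.nil_append, List.isChain_cons_cons,
        List.isChain_singleton, and_true]
      exact ⟨(hz i h1).1, (hz i h1).2.1⟩
    · by_cases h2 : i ∈ K
      · simp only [h1, h2, if_true, if_false, List.cons_append, List.nil_append, List.isChain_cons_cons,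
          List.isChain_singleton, and_true]
        exact ⟨(hxy i h2).1, (hxy i h2).2.1, (hxy i h2).2.2.1⟩
      · simp only [h1, h2, if_false, List.nil_append, List.isChain_cons_cons,
          List.isChain_singleton, and_true]
        exact hadj i h1 h2
  · intro i
    by_cases h1 : i ∈ Z
    · simp only [h1, if_true]
      exact List.nodup_singleton _
    · by_cases h2 : i ∈ K
      · simp only [h1, h2, if_true, if_false]
        rw [List.nodup_cons, List.mem_singleton]
        exact ⟨ixy i h2 i h2, List.nodup_singleton _⟩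
      · simp only [h1, h2, if_false]
        exact List.nodup_nil
  · intro i j hij w hw hw'
    rcases hmem i w hw with ⟨h1, h2⟩ | ⟨h1, h2⟩ <;> rcases hmem j w hw' with ⟨h3, h4⟩ | ⟨h3, h4⟩
    · exact hij (izz i h1 j h3 (h2.symm.trans h4))
    · rcases h4 with h4 | h4
      · exact (izx i h1 j h3).1 (h2.symm.trans h4)
      · exact (izx i h1 j h3).2 (h2.symm.trans h4)
    · rcases h2 with h2 | h2
      · exact (izx j h3 i h1).1 (h4.symm.trans h2)
      · exact (izx j h3 i h1).2 (h4.symm.trans h2)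
    · rcases h2 with h2 | h2 <;> rcases h4 with h4 | h4
      · exact hij (ixx i h1 j h3 (h2.symm.trans h4))
      · exact ixy i h1 j h3 (h2.symm.trans h4)
      · exact ixy j h3 i h1 (h4.symm.trans h2)
      · exact hij (iyy i h1 j h3 (h2.symm.trans h4))
  · intro i w hw j
    rcases hmem i w hw with ⟨h1, h2⟩ | ⟨h1, h2 | h2⟩
    · rw [h2]
      exact (hz i h1).2.2 j
    · rw [h2]
      exact ((hxy i h1).2.2.2 j).1
    · rw [h2]
      exact ((hxy i h1).2.2.2 j).2

end Kal
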