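import Pool.Agent.Kcg.Count

set_option autoImplicit false

namespace Kal

open Kcg

/-- Cyclically consecutive numbers among `0, ..., k - 1`. -/
def Cons (k i j : ℕ) : Prop :=
  j = i + 1 ∨ i = j + 1 ∨ (i = 0 ∧ j + 1 = k) ∨ (j = 0 ∧ i + 1 = k)

/-- The complement of a cycle on `k` vertices, and `u` more vertices adjacent to everything. -/
def lowAl (k u : ℕ) : SimpleGraph (Fin k ⊕ Fin u) where
  Adj x y := x ≠ y ∧ ∀ i j : Fin k, x = Sum.inl i → y = Sum.inl j → ¬ Cons k i j
  symm := ⟨fun _ _ h => ⟨h.1.symm, fun i j hi hj hc => h.2 j i hj hi (by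
    unfold Cons at hc ⊢
    omega)⟩⟩
  loopless := ⟨fun _ h => h.1 rfl⟩

private theorem lal_of {k u : ℕ} {a b : Fin k ⊕ Fin u} (hab : a ≠ b) (h : ¬ (lowAl k u).Adj a b) :
    ∃ i j : Fin k, a = Sum.inl i ∧ b = Sum.inl j ∧ Cons k i j := by
  by_contra hcon
  push Not at hcon
  exact h ⟨hab, fun i j hi hj => hcon i j hi hj⟩

/-- ROW lal. A cycle of length at least 5 has no triangle. -/
theorem lowAl_alpha (k u : ℕ) (hk : 5 ≤ k) (a b c : Fin k ⊕ Fin u) (hab : a ≠ b) (hac : a ≠ c)
    (hbc : b ≠ c) : (lowAl k u).Adj a b ∨ (lowAl k u).Adj a c ∨ (lowAl k u).Adj b c := by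
  by_contra hcon
  push Not at hcon
  obtain ⟨h1, h2, h3⟩ := hcon
  obtain ⟨i, j, hi, hj, c1⟩ := lal_of hab h1
  obtain ⟨i', l, hi', hl, c2⟩ := lal_of hac h2
  obtain ⟨j', l', hj', hl', c3⟩ := lal_of hbc h3
  have e1 : i' = i := Sum.inl_injective (hi'.symm.trans hi)
  have e2 : j' = j := Sum.inl_injective (hj'.symm.trans hj)
  have e3 : l' = l := Sum.inl_injective (hl'.symm.trans hl)
  subst e1 e2 e3
  have n1 : (i' : ℕ) ≠ j' := fun he => hab (by rw [hi, hj, Fin.ext he])
  have n2 : (i' : ℕ) ≠ l' := fun he => hac (by rw [hi, hl, Fin.ext he])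
  have n3 : (j' : ℕ) ≠ l' := fun he => hbc (by rw [hj, hl, Fin.ext he])
  have b1 := i'.2
  have b2 := j'.2
  have b3 := l'.2
  unfold Cons at c1 c2 c3
  omega

private theorem lco_adj {k u : ℕ} {i j : Fin k} (h : i ≠ j) (hc : ¬ Cons k i j) :
    (lowAl k u).Adj (Sum.inl i) (Sum.inl j) := by
  refine ⟨fun he => h (Sum.inl_injective he), fun a b ha hb => ?_⟩
  rw [← Sum.inl_injective ha, ← Sum.inl_injective hb]
  exact hc

private theorem lco_adj' {k u : ℕ} {i : Fin k} {c : Fin u} :
    (lowAl k u).Adj (Sum.inl i) (Sum.inr c) :=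
  ⟨by simp, fun a b _ hb => by simp at hb⟩

/-- ROW lco. As `Kcb.lowCo_conn` (helper11, store MP_fcb37c_co_Kcb_lcon_helper11.lean) but for all
`k ≥ 5`: at least four vertices are left; two non-adjacent left ones are `inl i`, `inl j` with
`Cons k i j`, say `j` follows `i`; `p` before `i`, `q` after `j`. A left vertex outside `{p, i, j, q}` is
adjacent to both; otherwise these four are left and `i`, `q`, `p`, `j` is a path (`k ≥ 5`). -/
theorem lowAl_conn (k u m : ℕ) (hk : 5 ≤ k) (h : m + 3 ≤ k + u) : MConn m (lowAl k u) := by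
  classical
  have hc : Fintype.card (Fin k ⊕ Fin u) = k + u := by simp
  refine ⟨by rw [hc]; omega, fun S hS => ?_⟩
  have hSc : 4 ≤ Sᶜ.card := by
    rw [Finset.card_compl, hc]
    omega
  rw [SimpleGraph.connected_iff]
  constructor
  · rintro ⟨x, hx⟩ ⟨y, hy⟩
    by_cases hxy : (lowAl k u).Adj x y
    · exact SimpleGraph.Adj.reachable (by exact hxy)
    by_cases hxy' : x = y
    · subst hxy'
      exact SimpleGraph.Reachable.refl _
    obtain ⟨i, j, rfl, rfl, hij⟩ : ∃ i j : Fin k, x = Sum.inl i ∧ y = Sum.inl j ∧ Cons k i j := by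
      by_contra hcon
      push Not at hcon
      exact hxy ⟨hxy', fun i j hi hj => hcon i j hi hj⟩
    have hij' : i ≠ j := fun he => hxy' (by rw [he])
    have h2 : 1 < (Sᶜ \ {Sum.inl i, Sum.inl j}).card := by
      have h3 := Finset.le_card_sdiff ({Sum.inl i, Sum.inl j} : Finset (Fin k ⊕ Fin u)) Sᶜ
      have h4 : ({Sum.inl i, Sum.inl j} : Finset (Fin k ⊕ Fin u)).card ≤ 2 := Finset.card_le_two
      omega
    obtain ⟨w₁, hw₁, w₂, hw₂, hne⟩ := Finset.one_lt_card.1 h2
    simp only [Finset.mem_sdiff, Finset.mem_compl, Finset.mem_insert, Finset.mem_singleton, not_or] at hw₁ hw₂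
    obtain ⟨hw1, h1i, h1j⟩ := hw₁
    obtain ⟨hw2, h2i, h2j⟩ := hw₂
    have via : ∀ z, z ∉ S → (lowAl k u).Adj (Sum.inl i) z → (lowAl k u).Adj (Sum.inl j) z →
        ((lowAl k u).induce {x | x ∉ S}).Reachable ⟨Sum.inl i, hx⟩ ⟨Sum.inl j, hy⟩ := by
      intro z hz a1 a2
      have e1 : ((lowAl k u).induce {x | x ∉ S}).Adj ⟨Sum.inl i, hx⟩ ⟨z, hz⟩ := a1
      have e2 : ((lowAl k u).induce {x | x ∉ S}).Adj ⟨Sum.inl j, hy⟩ ⟨z, hz⟩ := a2
      exact e1.reachable.trans e2.reachable.symm
    have via2 : ∀ z z', z ∉ S → z' ∉ S → (lowAl k u).Adj (Sum.inl i) z → (lowAl k u).Adj z z' →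
        (lowAl k u).Adj (Sum.inl j) z' →
        ((lowAl k u).induce {x | x ∉ S}).Reachable ⟨Sum.inl i, hx⟩ ⟨Sum.inl j, hy⟩ := by
      intro z z' hz hz' a1 a3 a2
      have e1 : ((lowAl k u).induce {x | x ∉ S}).Adj ⟨Sum.inl i, hx⟩ ⟨z, hz⟩ := a1
      have e3 : ((lowAl k u).induce {x | x ∉ S}).Adj ⟨z, hz⟩ ⟨z', hz'⟩ := a3
      have e2 : ((lowAl k u).induce {x | x ∉ S}).Adj ⟨Sum.inl j, hy⟩ ⟨z', hz'⟩ := a2
      exact (e1.reachable.trans e3.reachable).trans e2.reachable.symm
    rcases w₁ with l₁ | c₁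
    swap
    · exact via _ hw1 lco_adj' lco_adj'
    rcases w₂ with l₂ | c₂
    swap
    · exact via _ hw2 lco_adj' lco_adj'
    have n1i : l₁ ≠ i := fun he => h1i (by rw [he])
    have n1j : l₁ ≠ j := fun he => h1j (by rw [he])
    have n2i : l₂ ≠ i := fun he => h2i (by rw [he])
    have n2j : l₂ ≠ j := fun he => h2j (by rw [he])
    have n12 : l₁ ≠ l₂ := fun he => hne (by rw [he])
    have v1 : (l₁ : ℕ) ≠ i := fun he => n1i (Fin.ext he)
    have v2 : (l₁ : ℕ) ≠ j := fun he => n1j (Fin.ext he)
    have v3 : (l₂ : ℕ) ≠ i := fun he => n2i (Fin.ext he)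
    have v4 : (l₂ : ℕ) ≠ j := fun he => n2j (Fin.ext he)
    have v5 : (l₁ : ℕ) ≠ l₂ := fun he => n12 (Fin.ext he)
    have v6 : (i : ℕ) ≠ j := fun he => hij' (Fin.ext he)
    have b1 := i.2
    have b2 := j.2
    have b3 := l₁.2
    have b4 := l₂.2
    by_cases c1 : Cons k i l₁ <;> by_cases c2 : Cons k j l₁
    · exfalso
      unfold Cons at hij c1 c2
      omega
    · by_cases c3 : Cons k i l₂
      · exfalso
        unfold Cons at hij c1 c3
        omega
      by_cases c4 : Cons k j l₂
      · have c5 : ¬ Cons k l₂ l₁ := by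
          intro c5
          unfold Cons at hij c1 c4 c5
          omega
        exact via2 _ _ hw2 hw1 (lco_adj n2i.symm c3) (lco_adj n12.symm c5) (lco_adj n1j.symm c2)
      · exact via _ hw2 (lco_adj n2i.symm c3) (lco_adj n2j.symm c4)
    · by_cases c4 : Cons k j l₂
      · exfalso
        unfold Cons at hij c2 c4
        omega
      by_cases c3 : Cons k i l₂
      · have c5 : ¬ Cons k l₁ l₂ := by
          intro c5
          unfold Cons at hij c2 c3 c5
          omega
        exact via2 _ _ hw1 hw2 (lco_adj n1i.symm c1) (lco_adj n12 c5) (lco_adj n2j.symm c4)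
      · exact via _ hw2 (lco_adj n2i.symm c3) (lco_adj n2j.symm c4)
    · exact via _ hw1 (lco_adj n1i.symm c1) (lco_adj n1j.symm c2)
  · obtain ⟨z, hz⟩ := Finset.card_pos.1 (show 0 < Sᶜ.card by omega)
    exact ⟨⟨z, Finset.mem_compl.1 hz⟩⟩

private theorem lno_bad {V : Type} (R : V → V → Prop) [DecidableRel R] :
    ∀ (k : ℕ) (v : Fin (k + 1) → V), (∀ i j : Fin (k + 1), (j : ℕ) = i + 1 → ¬ R (v i) (v j)) →
      bad R (List.ofFn v) = k := by
  intro k
  induction k with
  | zero =>
    intro v _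
    simp [bad]
  | succ k ih =>
    intro v h
    have hw : List.ofFn (fun i : Fin (k + 1) => v i.succ) =
        v (Fin.succ 0) :: List.ofFn (fun i : Fin k => v i.succ.succ) := List.ofFn_succ
    have h1 := ih (fun i : Fin (k + 1) => v i.succ) (fun i j hij => h i.succ j.succ (by
      simp only [Fin.val_succ]
      omega))
    have h3 : List.ofFn v = v 0 :: v (Fin.succ 0) :: List.ofFn (fun i : Fin k => v i.succ.succ) := by
      rw [List.ofFn_succ, hw]
    have h4 : bad R (List.ofFn v) =
        (if R (v 0) (v (Fin.succ 0)) then 0 else 1) +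
          bad R (List.ofFn (fun i : Fin (k + 1) => v i.succ)) := by
      rw [h3, hw]
      rfl
    have h5 : ¬ R (v 0) (v (Fin.succ 0)) := h 0 (Fin.succ 0) (by simp)
    rw [h4, if_neg h5, h1]
    omega

private theorem lno_len {A B : Type} [Fintype A] [Fintype B] (L : List (A ⊕ B)) (hL : L.Nodup)
    (h : ∀ x ∈ L, x.isLeft = true) : L.length ≤ Fintype.card A := by
  classical
  rw [← List.toFinset_card_of_nodup hL]
  have h1 : L.toFinset ⊆ (Finset.univ : Finset A).image Sum.inl := by
    intro x hx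
    rw [List.mem_toFinset] at hx
    obtain ⟨a, rfl⟩ := Sum.isLeft_iff.1 (h x hx)
    exact Finset.mem_image_of_mem _ (Finset.mem_univ a)
  exact (Finset.card_le_card h1).trans Finset.card_image_le

private theorem lno_len' {A B : Type} [Fintype A] [Fintype B] (L : List (A ⊕ B)) (hL : L.Nodup)
    (h : ∀ x ∈ L, x.isLeft = false) : L.length ≤ Fintype.card B := by
  classical
  rw [← List.toFinset_card_of_nodup hL]
  have h1 : L.toFinset ⊆ (Finset.univ : Finset B).image Sum.inr := by
    intro x hx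
    rw [List.mem_toFinset] at hx
    obtain ⟨b, rfl⟩ := Sum.isRight_iff.1 (Sum.isLeft_eq_false.1 (h x hx))
    exact Finset.mem_image_of_mem _ (Finset.mem_univ b)
  exact (Finset.card_le_card h1).trans Finset.card_image_le

/-- ROW lno. As `Kcb.lowCo_not_ordered` (case `k` even; helper61) and `Kcg/Low.lean`: the elements
`inl i` of the cycle list `L` are `v_0, ..., v_(k-1)` in this order, all `k - 1` consecutive pairs are bad and
so is the closing pair; `Kcg.bad_filter_le`. If the first element of `L` is free apply it to the tail; if it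
is `v_0` then the last element is not `v_(k-1)` (it is adjacent to the head), so it is free: apply it
to `L.dropLast`. -/
theorem lowAl_not_ordered (k u : ℕ) (hk : 5 ≤ k) (hu : u + 1 ≤ k) : ¬ KOrdered k (lowAl k u) := by
  classical
  intro hK
  obtain ⟨L, ⟨_, hnd, hch, hne, hclose⟩, hsub⟩ := hK Sum.inl Sum.inl_injective
  obtain ⟨m, rfl⟩ : ∃ m, k = m + 1 := ⟨k - 1, by omega⟩
  have hall : ∀ x ∈ List.ofFn (Sum.inl : Fin (m + 1) → Fin (m + 1) ⊕ Fin u), x.isLeft = true := by
    intro x hx
    rw [List.mem_ofFn'] at hx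
    obtain ⟨i, rfl⟩ := hx
    rfl
  have hs2 : (List.ofFn (Sum.inl : Fin (m + 1) → Fin (m + 1) ⊕ Fin u)).Sublist (L.filter Sum.isLeft) := by
    have h1 := hsub.filter Sum.isLeft
    rwa [List.filter_eq_self.2 hall] at h1
  have hlen : (L.filter Sum.isLeft).length ≤ m + 1 := by
    have h1 := lno_len (L.filter Sum.isLeft) (hnd.filter _) (fun x hx => (List.mem_filter.1 hx).2)
    rwa [Fintype.card_fin] at h1
  have heq : List.ofFn (Sum.inl : Fin (m + 1) → Fin (m + 1) ⊕ Fin u) = L.filter Sum.isLeft :=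
    hs2.eq_of_length_le (by rw [List.length_ofFn]; exact hlen)
  have hbad : bad (lowAl (m + 1) u).Adj
      (List.ofFn (Sum.inl : Fin (m + 1) → Fin (m + 1) ⊕ Fin u)) = m := by
    refine lno_bad (lowAl (m + 1) u).Adj m Sum.inl fun i j hij hadj => ?_
    exact hadj.2 i j rfl rfl (Or.inl hij)
  have hlen' := lno_len' (L.filter fun x => !Sum.isLeft x) (hnd.filter _) (fun x hx => by
    have h1 := (List.mem_filter.1 hx).2
    simpa using h1)
  rw [Fintype.card_fin] at hlen'
  have key : ∀ M : List (Fin (m + 1) ⊕ Fin u), M.IsChain (lowAl (m + 1) u).Adj →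
      M.filter Sum.isLeft = L.filter Sum.isLeft →
      m ≤ (M.filter fun x => !Sum.isLeft x).length := by
    intro M hM hMf
    have hb := bad_filter_le (lowAl (m + 1) u).Adj Sum.isLeft M hM
    rwa [hMf, ← heq, hbad] at hb
  obtain ⟨x, l, rfl⟩ : ∃ x l, L = x :: l := by
    cases L with
    | nil => exact absurd rfl hne
    | cons x l => exact ⟨x, l, rfl⟩
  by_cases hx : x.isLeft = true
  · -- the first element is a vertex of the cycle, so it is `v_0`
    have e1 : (x :: l).filter Sum.isLeft = x :: l.filter Sum.isLeft := by simp [hx]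
    have hx0 : x = Sum.inl 0 := by
      rw [e1, List.ofFn_succ] at heq
      exact (List.cons.inj heq).1.symm
    have hlast : ((x :: l).getLast hne).isLeft = false := by
      by_contra hy
      rw [Bool.not_eq_false] at hy
      have e2 : (x :: l) = (x :: l).dropLast ++ [(x :: l).getLast hne] :=
        (List.dropLast_append_getLast hne).symm
      have e3 : (x :: l).filter Sum.isLeft =
          (x :: l).dropLast.filter Sum.isLeft ++ [(x :: l).getLast hne] := by
        conv_lhs => rw [e2]
        rw [List.filter_append]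
        simp [hy]
      have e4 : List.ofFn (Sum.inl : Fin (m + 1) → Fin (m + 1) ⊕ Fin u) =
          List.ofFn (fun i : Fin m => (Sum.inl i.castSucc : Fin (m + 1) ⊕ Fin u)) ++
            [Sum.inl (Fin.last m)] := by
        rw [List.ofFn_succ']
        simp [List.concat_eq_append]
      rw [heq.symm, e4] at e3
      have e5 : (x :: l).getLast hne = Sum.inl (Fin.last m) := by
        have := (List.append_inj' e3 rfl).2
        exact (List.cons.inj this).1.symm
      rw [e5] at hclose
      have e6 : (x :: l).head hne = Sum.inl 0 := hx0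
      rw [e6] at hclose
      refine hclose.2 (Fin.last m) 0 rfl rfl ?_
      right; right; right
      simp
    have e2 : (x :: l) = (x :: l).dropLast ++ [(x :: l).getLast hne] :=
      (List.dropLast_append_getLast hne).symm
    have f1 : (x :: l).dropLast.filter Sum.isLeft = (x :: l).filter Sum.isLeft := by
      conv_rhs => rw [e2]
      rw [List.filter_append]
      simp [hlast]
    have f2 : ((x :: l).filter fun x => !Sum.isLeft x).length =
        ((x :: l).dropLast.filter fun x => !Sum.isLeft x).length + 1 := by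
      conv_lhs => rw [e2]
      rw [List.filter_append, List.length_append, List.filter_cons_of_pos (by rw [hlast]; rfl)]
      rfl
    have hc2 : (x :: l).dropLast.IsChain (lowAl (m + 1) u).Adj := by
      rw [e2] at hch
      exact (List.isChain_append.1 hch).1
    have := key _ hc2 f1
    omega
  · have e1 : (x :: l).filter Sum.isLeft = l.filter Sum.isLeft := by simp [hx]
    have e2 : ((x :: l).filter fun x => !Sum.isLeft x).length =
        (l.filter fun x => !Sum.isLeft x).length + 1 := by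
      rw [List.filter_cons_of_pos (by rw [Bool.eq_false_iff.2 hx]; rfl), List.length_cons]
    have := key l hch.tail e1.symm
    omega

end Kal
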