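import Pool.Agent.Kal.Graph
import Pool.Agent.Kal.Low

set_option autoImplicit false

namespace Kal

open Finset Kcg

private theorem main_cyc {k : ℕ} [NeZero k] (S : Fin k → Prop) (j0 : Fin k) (h0 : S j0)
    (h : ∀ j, S j → S (j + 1)) (i : Fin k) : S i := by
  have hk : 0 < k := Nat.pos_of_ne_zero (NeZero.ne k)
  have key : ∀ n : ℕ, S ⟨((j0 : ℕ) + n) % k, Nat.mod_lt _ hk⟩ := by
    intro n
    induction n with
    | zero =>
      have e : (⟨((j0 : ℕ) + 0) % k, Nat.mod_lt _ hk⟩ : Fin k) = j0 :=
        Fin.ext (by simp [Nat.mod_eq_of_lt j0.isLt])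
      rw [e]
      exact h0
    | succ n ih =>
      have e : (⟨((j0 : ℕ) + (n + 1)) % k, Nat.mod_lt _ hk⟩ : Fin k) =
          ⟨((j0 : ℕ) + n) % k, Nat.mod_lt _ hk⟩ + 1 := by
        apply Fin.ext
        rw [Fin.val_add, Fin.val_one']
        show ((j0 : ℕ) + (n + 1)) % k = (((j0 : ℕ) + n) % k + 1 % k) % k
        rw [← Nat.add_mod, add_assoc]
      rw [e]
      exact h _ ih
  have e : (⟨((j0 : ℕ) + ((i : ℕ) + k - (j0 : ℕ))) % k, Nat.mod_lt _ hk⟩ : Fin k) = i := by
    apply Fin.ext
    show ((j0 : ℕ) + ((i : ℕ) + k - (j0 : ℕ))) % k = i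
    have h1 : (j0 : ℕ) + ((i : ℕ) + k - (j0 : ℕ)) = i + k := by
      have := j0.isLt
      omega
    rw [h1, Nat.add_mod_right, Nat.mod_eq_of_lt i.isLt]
  rw [← e]
  exact key _

private theorem main_val {k : ℕ} [NeZero k] (i : Fin k) (hk : 5 ≤ k) :
    ((i + 1 : Fin k) : ℕ) = if (i : ℕ) + 1 = k then 0 else (i : ℕ) + 1 := by
  have h3 := i.isLt
  rw [Fin.val_add, Fin.val_one', Nat.mod_eq_of_lt (by omega : 1 < k)]
  split_ifs with h
  · rw [h, Nat.mod_self]
  · rw [Nat.mod_eq_of_lt (by omega)]

theorem upper (k : ℕ) (hk : 5 ≤ k) {V : Type} [Fintype V] (G : SimpleGraph V)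
    (hα : ∀ a b c : V, a ≠ b → a ≠ c → b ≠ c → G.Adj a b ∨ G.Adj a c ∨ G.Adj b c)
    (hG : MConn (2 * k - 3) G) : KOrdered k G := by
  classical
  intro v hv
  have : NeZero k := ⟨by omega⟩
  have hone : ∀ i : Fin k, i + 1 ≠ i := by
    intro i h1
    have h2 := congrArg Fin.val h1
    rw [main_val i hk] at h2
    have := i.isLt
    split_ifs at h2 <;> omega
  have htwo : ∀ i : Fin k, i + 1 + 1 ≠ i := by
    intro i h1
    have h2 := congrArg Fin.val h1
    rw [main_val _ hk, main_val i hk] at h2
    have := i.isLt
    split_ifs at h2 <;> omega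
  have hthree : ∀ i : Fin k, i + 1 + 1 + 1 ≠ i := by
    intro i h1
    have h2 := congrArg Fin.val h1
    rw [main_val _ hk, main_val _ hk, main_val i hk] at h2
    have := i.isLt
    split_ifs at h2 <;> omega
  have : Nonempty V := ⟨v 0⟩
  set I : Finset (Fin k) := univ.filter (fun i => ¬ G.Adj (v i) (v (i + 1))) with hIdef
  have hI : ∀ i, i ∈ I ↔ ¬ G.Adj (v i) (v (i + 1)) := by
    intro i
    simp [hIdef]
  set N : Fin k → Finset V := fun i =>
    univ.filter (fun w => (∀ j, w ≠ v j) ∧ G.Adj w (v i) ∧ G.Adj w (v (i + 1))) with hNdef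
  have hN : ∀ i w, w ∈ N i ↔ (∀ j, w ≠ v j) ∧ G.Adj w (v i) ∧ G.Adj w (v (i + 1)) := by
    intro i w
    simp [hNdef]
  obtain ⟨J, hJI, ⟨chi, hchi, hchi'⟩, psi, hpsi, hpsi'⟩ := exists_critical I N
  set E : Finset V := J.biUnion N with hE
  set W : Finset V := univ.filter (fun w => (∀ j, w ≠ v j) ∧ w ∉ E) with hWdef
  have hW : ∀ w, w ∈ W ↔ (∀ j, w ≠ v j) ∧ w ∉ E := by
    intro w
    simp [hWdef]
  have hEfree : ∀ w ∈ E, ∀ j, w ≠ v j := by
    intro w hw
    rw [hE, mem_biUnion] at hw
    obtain ⟨i, _, hi⟩ := hw
    exact ((hN i w).1 hi).1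
  set R : Finset (Fin k) := E.image chi with hR
  have hRJ : R ⊆ J := by
    intro i hi
    obtain ⟨w, hw, rfl⟩ := mem_image.1 hi
    exact (hchi w hw).1
  have hRc : R.card = E.card := card_image_of_injOn (fun w hw w' hw' h => hchi' w hw w' hw' h)
  have hKc : (J \ R).card + E.card = J.card := by
    rw [← hRc]
    exact card_sdiff_add_card_eq_card hRJ
  have hOc : (I \ J).card + J.card = I.card := card_sdiff_add_card_eq_card hJI
  have hIk : I.card ≤ k := by
    have := card_le_univ I
    rwa [Fintype.card_fin] at this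
  have hcov : ∀ x, x ∈ W ∨ x ∈ E ∨ ∃ j, x = v j := by
    intro x
    by_cases h1 : ∃ j, x = v j
    · exact Or.inr (Or.inr h1)
    · push Not at h1
      by_cases h2 : x ∈ E
      · exact Or.inr (Or.inl h2)
      · exact Or.inl ((hW x).2 ⟨h1, h2⟩)
  have hcard : Fintype.card V = k + E.card + W.card := by
    have h1 : (univ : Finset V) = (univ.image v ∪ E) ∪ W := by
      ext x
      simp only [mem_univ, mem_union, mem_image, true_and, true_iff]
      rcases hcov x with h2 | h2 | ⟨j, h2⟩
      · exact Or.inr h2
      · exact Or.inl (Or.inr h2)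
      · exact Or.inl (Or.inl ⟨j, h2.symm⟩)
    have h2 : Disjoint (univ.image v) E := by
      rw [Finset.disjoint_left]
      intro x hx hx'
      obtain ⟨j, -, hj⟩ := mem_image.1 hx
      exact hEfree x hx' j hj.symm
    have h3 : Disjoint (univ.image v ∪ E) W := by
      rw [Finset.disjoint_left]
      intro x hx hx'
      obtain ⟨h4, h5⟩ := (hW x).1 hx'
      rcases mem_union.1 hx with h6 | h6
      · obtain ⟨j, -, hj⟩ := mem_image.1 h6
        exact h4 j hj.symm
      · exact h5 h6
    rw [← Finset.card_univ, h1, card_union_of_disjoint h3, card_union_of_disjoint h2,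
      card_image_of_injective _ hv, card_univ, Fintype.card_fin]
  -- sides
  have hside : ∀ w ∈ W, ∀ i ∈ J, (G.Adj w (v (i + 1)) ↔ ¬ G.Adj w (v i)) := by
    intro w hw i hi
    obtain ⟨h1, h2⟩ := (hW w).1 hw
    constructor
    · intro h3 h4
      exact h2 (mem_biUnion.2 ⟨i, hi, (hN i w).2 ⟨h1, h4, h3⟩⟩)
    · intro h3
      rcases hα w (v i) (v (i + 1)) (h1 i) (h1 (i + 1)) (fun h => hone i (hv h).symm) with
        h4 | h4 | h4
      · exact absurd h4 h3
      · exact h4
      · exact absurd h4 ((hI i).1 (hJI hi))
  have hanti : ∀ a ∈ W, ∀ b ∈ W, a ≠ b → ¬ G.Adj a b → ∀ i ∈ J,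
      decide (G.Adj a (v i)) ≠ decide (G.Adj b (v i)) := by
    intro a ha b hb hab hn i hi h
    have h0 : G.Adj a (v i) ↔ G.Adj b (v i) := by
      simpa using h
    obtain ⟨h1, _⟩ := (hW a).1 ha
    obtain ⟨h2, _⟩ := (hW b).1 hb
    by_cases h3 : G.Adj a (v i)
    · have h4 : ¬ G.Adj a (v (i + 1)) := fun h5 => (hside a ha i hi).1 h5 h3
      have h6 : ¬ G.Adj b (v (i + 1)) := fun h5 => (hside b hb i hi).1 h5 (h0.1 h3)
      rcases hα a b (v (i + 1)) hab (h1 _) (h2 _) with h7 | h7 | h7
      · exact hn h7
      · exact h4 h7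
      · exact h6 h7
    · rcases hα a b (v i) hab (h1 _) (h2 _) with h7 | h7 | h7
      · exact hn h7
      · exact h3 h7
      · exact h3 (h0.2 h7)
  let C : Core V (Fin k) :=
    { adj := G.Adj
      W := W
      J := J
      K := J \ R
      O := I \ J
      sd := fun w i => decide (G.Adj w (v i))
      con := fun o w => G.Adj w (v o) ∧ G.Adj w (v (o + 1))
      symm := fun a b h => h.symm
      KJ := sdiff_subset
      anti := hanti }
  have hsd : ∀ i ∈ J, ∀ w ∈ W, ((fun w => C.sd w i) w = true ↔ G.Adj w (v i)) ∧
      ((fun w => C.sd w i) w = false ↔ G.Adj w (v (i + 1))) := by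
    intro i hi w hw
    constructor
    · show decide (G.Adj w (v i)) = true ↔ _
      simp
    · show decide (G.Adj w (v i)) = false ↔ _
      rw [hside w hw i hi]
      simp
  have hst : ∃ f, C.IsState f := by
    refine C.exists_state psi ?_ ?_ ?_
    · intro o ho
      obtain ⟨h1, h2⟩ := hpsi o ho
      obtain ⟨h3, h4, h5⟩ := (hN o _).1 h1
      exact ⟨(hW _).2 ⟨h3, h2⟩, h4, h5⟩
    · exact hpsi'
    · intro i hi b
      have hiJ : i ∈ J := sdiff_subset hi
      have h1 := side_card hk hG v hv I hI W E hcov i (hJI hiJ) (fun w => C.sd w i) (hsd i hiJ) b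
      show (I \ J).card + (J \ R).card ≤ (W.filter fun w => C.sd w i = b).card
      omega
  -- a state without trouble
  obtain ⟨f, hf, hft⟩ : ∃ f, C.IsState f ∧ C.trouble f = ∅ := by
    rcases (J \ R).eq_empty_or_nonempty with hKe | ⟨i0, hi0⟩
    · obtain ⟨f, hf⟩ := hst
      refine ⟨f, hf, ?_⟩
      rw [eq_empty_iff_forall_notMem]
      intro i hi
      have h1 : i ∈ J \ R := ((C.mem_trouble f i).1 hi).1
      rw [hKe] at h1
      exact absurd h1 (notMem_empty _)
    refine C.main hst ?_ ?_
    · intro hWc
      have hWc' : W.card = (I \ J).card + 2 * (J \ R).card := hWc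
      have hi0J : i0 ∈ J := sdiff_subset hi0
      have h1 := whole_card hk hG v hv I hI W E hcov i0 (hJI hi0J) (fun w => C.sd w i0)
        (hsd i0 hi0J)
      have h2 : J.card ≤ I.card := card_le_card hJI
      have hJk : J.card = k := by
        rcases h1 with h1 | h1 <;> omega
      have hJu : J = univ := by
        rw [← card_eq_iff_eq_univ, hJk, Fintype.card_fin]
      constructor
      · show I \ J = ∅
        rw [hJu]
        exact sdiff_eq_empty_iff_subset.2 (subset_univ _)
      · intro a ha
        have haW : a ∈ W := ha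
        have hJa : ∀ i : Fin k, i ∈ J := fun i => by rw [hJu]; exact mem_univ i
        show C.cls a = W
        ext w
        rw [C.mem_cls]
        constructor
        · intro h
          exact h.1
        · intro hw
          refine ⟨hw, ?_⟩
          by_cases h3 : C.sd w 0 = C.sd a 0
          · left
            intro i _
            refine main_cyc (fun i => C.sd w i = C.sd a i) 0 h3 ?_ i
            intro j hj
            have hj' : decide (G.Adj w (v j)) = decide (G.Adj a (v j)) := hj
            have hj'' : G.Adj w (v j) ↔ G.Adj a (v j) := by simpa using hj'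
            show decide (G.Adj w (v (j + 1))) = decide (G.Adj a (v (j + 1)))
            rw [decide_eq_decide, hside w hw j (hJa j), hside a haW j (hJa j), hj'']
          · right
            intro i _
            refine main_cyc (fun i => C.sd w i ≠ C.sd a i) 0 h3 ?_ i
            intro j hj hj1
            apply hj
            have hj' : decide (G.Adj w (v (j + 1))) = decide (G.Adj a (v (j + 1))) := hj1
            rw [decide_eq_decide, hside w hw j (hJa j), hside a haW j (hJa j), not_iff_not] at hj'
            show decide (G.Adj w (v j)) = decide (G.Adj a (v j))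
            rw [decide_eq_decide]
            exact hj'
    · intro i hi a ha
      have hiK : i ∈ J \ R := hi
      have hiJ : i ∈ J := sdiff_subset hiK
      have hiI := (hI i).1 (hJI hiJ)
      obtain ⟨X, hX⟩ : ∃ X, X = C.part a i true := ⟨_, rfl⟩
      obtain ⟨Y, hY⟩ : ∃ Y, Y = C.part a i false := ⟨_, rfl⟩
      have hXW : ∀ w ∈ X, w ∈ W ∧ G.Adj w (v i) := by
        intro w hw
        rw [hX] at hw
        obtain ⟨h1, h2⟩ := (C.mem_part _ _ _ _).1 hw
        have h3 : w ∈ W := ((C.mem_cls _ _).1 h1).1
        exact ⟨h3, ((hsd i hiJ w h3).1).1 h2⟩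
      have hYW : ∀ w ∈ Y, w ∈ W ∧ G.Adj w (v (i + 1)) := by
        intro w hw
        rw [hY] at hw
        obtain ⟨h1, h2⟩ := (C.mem_part _ _ _ _).1 hw
        have h3 : w ∈ W := ((C.mem_cls _ _).1 h1).1
        exact ⟨h3, ((hsd i hiJ w h3).2).1 h2⟩
      have hXn : ∀ w ∈ X, ¬ G.Adj w (v (i + 1)) := fun w hw h =>
        (hside w (hXW w hw).1 i hiJ).1 h (hXW w hw).2
      have hYn : ∀ w ∈ Y, ¬ G.Adj w (v i) := fun w hw h =>
        (hside w (hYW w hw).1 i hiJ).1 (hYW w hw).2 h
      have hXY : Disjoint X Y := by
        rw [Finset.disjoint_left]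
        intro w hw hw'
        exact hXn w hw (hYW w hw').2
      have hvW : ∀ w ∈ W, ∀ j, v j ≠ w := fun w hw j h => ((hW w).1 hw).1 j h.symm
      have hvX : ∀ j, v j ∉ X := fun j h => hvW _ (hXW _ h).1 j rfl
      have hvY : ∀ j, v j ∉ Y := fun j h => hvW _ (hYW _ h).1 j rfl
      have hcls : (C.cls a).card = X.card + Y.card := by
        rw [hX, hY]
        have h1 : C.cls a = C.part a i true ∪ C.part a i false := by
          ext w
          rw [mem_union, C.mem_part, C.mem_part]
          constructor
          · intro h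
            cases h2 : C.sd w i with
            | true => exact Or.inl ⟨h, rfl⟩
            | false => exact Or.inr ⟨h, rfl⟩
          · rintro (h | h)
            · exact h.1
            · exact h.1
        rw [h1, card_union_of_disjoint]
        rw [← hX, ← hY]
        exact hXY
      by_cases hIc : I.card + 1 ≤ k
      · left
        obtain ⟨M, hM, hMc⟩ := cut_matching hG X Y (v i) (v (i + 1)) hXY (hvX _) (hvY _) (hvX _)
          (hvY _) (fun h => hone i (hv h).symm) hiI (fun b hb h => hYn b hb h.symm)
          (fun w hw h => hXn w hw h)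
        refine ⟨M, ?_, ?_⟩
        · rw [← hX, ← hY]
          exact hM
        · show (I \ J).card + (J \ R).card + (C.cls a).card ≤ M.card + W.card
          omega
      · have hIk' : I.card = k := by omega
        have hIu : I = univ := by
          rw [← card_eq_iff_eq_univ, hIk', Fintype.card_fin]
        have hall : ∀ j, ¬ G.Adj (v j) (v (j + 1)) := fun j =>
          (hI j).1 (by rw [hIu]; exact mem_univ j)
        obtain ⟨i', hi'⟩ : ∃ i' : Fin k, i' + 1 = i := ⟨i - 1, sub_add_cancel i 1⟩
        have hne1 : i + 1 + 1 ≠ i' := by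
          intro h
          apply hthree i'
          rw [hi', h]
        have hMex := cut_matching hG (insert (v (i + 1 + 1)) X) (insert (v i') Y) (v i) (v (i + 1))
          (by
            rw [Finset.disjoint_left]
            intro w hw hw'
            rw [mem_insert] at hw hw'
            rcases hw with rfl | hw
            · rcases hw' with h | h
              · exact hne1 (hv h)
              · exact hvY _ h
            · rcases hw' with rfl | h
              · exact hvX _ hw
              · exact Finset.disjoint_left.1 hXY hw h)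
          (by
            rw [mem_insert]
            rintro (h | h)
            · exact htwo i (hv h).symm
            · exact hvX _ h)
          (by
            rw [mem_insert]
            rintro (h | h)
            · exact hone i' (hi'.trans (hv h))
            · exact hvY _ h)
          (by
            rw [mem_insert]
            rintro (h | h)
            · exact hone (i + 1) (hv h).symm
            · exact hvX _ h)
          (by
            rw [mem_insert]
            rintro (h | h)
            · apply htwo i'
              rw [hi']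
              exact hv h
            · exact hvY _ h)
          (fun h => hone i (hv h).symm) hiI
          (by
            intro b hb h
            rw [mem_insert] at hb
            rcases hb with rfl | hb
            · have h1 := hall i'
              rw [hi'] at h1
              exact h1 h.symm
            · exact hYn b hb h.symm)
          (by
            intro w hw h
            rw [mem_insert] at hw
            rcases hw with rfl | hw
            · exact hall (i + 1) h.symm
            · exact hXn w hw h)
        obtain ⟨M, hM, hMc⟩ := hMex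
        rw [card_insert_of_notMem (hvX _), card_insert_of_notMem (hvY _)] at hMc
        rcases split_matching G.Adj X Y _ _ (hvX _) (hvY _) hXY M hM with
          ⟨M', hM', hMM⟩ | ⟨M', p, q, hM', hp, hq, hpM, hqM, had1, had2, hMM⟩
        · left
          refine ⟨M', ?_, ?_⟩
          · rw [← hX, ← hY]
            exact hM'
          · show (I \ J).card + (J \ R).card + (C.cls a).card ≤ M'.card + W.card
            omega
        · right
          have hcon1 : G.Adj q (v (i + 1)) ∧ G.Adj q (v (i + 1 + 1)) :=
            ⟨(hYW q hq).2, had1.symm⟩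
          have hcon2 : G.Adj p (v i') ∧ G.Adj p (v (i' + 1)) :=
            ⟨had2, by rw [hi']; exact (hXW p hp).2⟩
          have hO : ∀ j w, w ∈ W → G.Adj w (v j) ∧ G.Adj w (v (j + 1)) → j ∈ I \ J := by
            intro j w hw h
            rw [mem_sdiff]
            refine ⟨by rw [hIu]; exact mem_univ j, fun hj => ?_⟩
            exact ((hW w).1 hw).2 (mem_biUnion.2 ⟨j, hj, (hN j w).2 ⟨((hW w).1 hw).1, h.1, h.2⟩⟩)
          refine ⟨M', p, q, i + 1, i', ?_, ?_, ?_, hpM, hqM, hO _ q (hYW q hq).1 hcon1,
            hO _ p (hXW p hp).1 hcon2, ?_, hcon1, hcon2, ?_⟩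
          · rw [← hX, ← hY]
            exact hM'
          · rw [← hX]
            exact hp
          · rw [← hY]
            exact hq
          · intro h
            apply htwo i'
            rw [hi']
            exact h
          · show (I \ J).card + (J \ R).card + (C.cls a).card ≤ M'.card + W.card + 1
            omega
  -- the paths
  have hc : ∀ i : Fin k, ∃ w : V, i ∈ R → w ∈ E ∧ chi w = i := by
    intro i
    by_cases h : i ∈ R
    · obtain ⟨w, hw, hw'⟩ := mem_image.1 h
      exact ⟨w, fun _ => ⟨hw, hw'⟩⟩
    · exact ⟨v 0, fun h' => absurd h' h⟩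
  choose c hc using hc
  have hsl : ∀ o ∈ I \ J, Sum.inl o ∈ C.slots := fun o ho => (C.mem_slots_inl o).2 ho
  have hsr : ∀ i ∈ J \ R, ∀ b, Sum.inr (i, b) ∈ C.slots := fun i hi b =>
    (C.mem_slots_inr i b).2 hi
  have hfW : ∀ s ∈ C.slots, f s ∈ W := hf.mem
  have hOR : ∀ i ∈ R, i ∉ I \ J := fun i hi h => (mem_sdiff.1 h).2 (hRJ hi)
  obtain ⟨P, hp1, hp2, hp3, hp4⟩ := exists_paths G v ((I \ J) ∪ R) (J \ R)
    (by
      rw [Finset.disjoint_left]
      intro i hi hi'
      obtain ⟨h1, h2⟩ := mem_sdiff.1 hi'
      rcases mem_union.1 hi with h3 | h3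
      · exact (mem_sdiff.1 h3).2 h1
      · exact h2 h3)
    (fun i => if i ∈ I \ J then f (Sum.inl i) else c i) (fun i => f (Sum.inr (i, true)))
    (fun i => f (Sum.inr (i, false)))
    (by
      intro i h1 h2
      by_contra h3
      have h4 := (hI i).2 h3
      by_cases h5 : i ∈ J
      · by_cases h6 : i ∈ R
        · exact h1 (mem_union_right _ h6)
        · exact h2 (mem_sdiff.2 ⟨h5, h6⟩)
      · exact h1 (mem_union_left _ (mem_sdiff.2 ⟨h4, h5⟩)))
    (by
      intro i hi
      rcases mem_union.1 hi with h1 | h1
      · simp only [if_pos h1]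
        obtain ⟨h2, h3⟩ := hf.con i h1
        exact ⟨h2.symm, h3, ((hW _).1 (hfW _ (hsl i h1))).1⟩
      · simp only [if_neg (hOR i h1)]
        obtain ⟨h2, h3⟩ := hc i h1
        obtain ⟨h4, h5, h6⟩ := (hN _ _).1 (hchi _ h2).2
        rw [h3] at h5 h6
        exact ⟨h5.symm, h6, h4⟩)
    (by
      intro i hi
      have hiJ : i ∈ J := sdiff_subset hi
      have h1 := hfW _ (hsr i hi true)
      have h2 := hfW _ (hsr i hi false)
      have h3 := ((hsd i hiJ _ h1).1).1 (hf.side i hi true)
      have h4 := ((hsd i hiJ _ h2).2).1 (hf.side i hi false)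
      refine ⟨h3.symm, ?_, h4, fun j => ⟨((hW _).1 h1).1 j, ((hW _).1 h2).1 j⟩⟩
      by_contra h5
      have h6 : i ∈ C.trouble f := (C.mem_trouble f i).2 ⟨hi, h5⟩
      rw [hft] at h6
      exact absurd h6 (notMem_empty _))
    (by
      intro i hi j hj h
      rcases mem_union.1 hi with h1 | h1 <;> rcases mem_union.1 hj with h2 | h2
      · simp only [if_pos h1, if_pos h2] at h
        exact Sum.inl_injective (hf.inj _ (hsl i h1) _ (hsl j h2) h)
      · simp only [if_pos h1, if_neg (hOR j h2)] at h
        have h3 := (hW _).1 (hfW _ (hsl i h1))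
        rw [h] at h3
        exact absurd (hc j h2).1 h3.2
      · simp only [if_pos h2, if_neg (hOR i h1)] at h
        have h3 := (hW _).1 (hfW _ (hsl j h2))
        rw [← h] at h3
        exact absurd (hc i h1).1 h3.2
      · simp only [if_neg (hOR i h1), if_neg (hOR j h2)] at h
        rw [← (hc i h1).2, ← (hc j h2).2, h])
    (by
      intro i hi j hj h
      have := hf.inj _ (hsr i hi true) _ (hsr j hj true) h
      simpa using this)
    (by
      intro i hi j hj h
      have := hf.inj _ (hsr i hi false) _ (hsr j hj false) h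
      simpa using this)
    (by
      intro i hi j hj h
      have := hf.inj _ (hsr i hi true) _ (hsr j hj false) h
      simp at this)
    (by
      intro i hi j hj
      rcases mem_union.1 hi with h1 | h1
      · simp only [if_pos h1]
        constructor
        · intro h
          have := hf.inj _ (hsl i h1) _ (hsr j hj true) h
          simp at this
        · intro h
          have := hf.inj _ (hsl i h1) _ (hsr j hj false) h
          simp at this
      · simp only [if_neg (hOR i h1)]
        have h2 := (hc i h1).1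
        constructor
        · intro h
          rw [h] at h2
          exact ((hW _).1 (hfW _ (hsr j hj true))).2 h2
        · intro h
          rw [h] at h2
          exact ((hW _).1 (hfW _ (hsr j hj false))).2 h2)
  exact Kcb.exists_cycle_lists G k (by omega) v hv P hp1 hp2 hp3 hp4

theorem lower (k : ℕ) (hk : 5 ≤ k) (m : ℕ) (hm : m < 2 * k - 3) :
    ∃ (V : Type) (_ : Fintype V) (G : SimpleGraph V),
      (∀ a b c : V, a ≠ b → a ≠ c → b ≠ c → G.Adj a b ∨ G.Adj a c ∨ G.Adj b c) ∧
      MConn m G ∧ ¬ KOrdered k G :=
  ⟨Fin k ⊕ Fin (k - 1), inferInstance, lowAl k _, lowAl_alpha k _ hk,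
    lowAl_conn _ _ m hk (by omega), lowAl_not_ordered _ _ hk (by omega)⟩

end Kal
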