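import Pool.Agent.Kal.Core

set_option autoImplicit false

namespace Kal

open Finset

variable {V ι : Type}

namespace Core

theorem mem_slots_inl (C : Core V ι) (o : ι) : Sum.inl o ∈ C.slots ↔ o ∈ C.O := by
  simp [slots]

theorem mem_slots_inr (C : Core V ι) (i : ι) (b : Bool) : Sum.inr (i, b) ∈ C.slots ↔ i ∈ C.K := by
  simp [slots]

theorem mem_trouble (C : Core V ι) (f : Slot ι → V) (i : ι) :
    i ∈ C.trouble f ↔ i ∈ C.K ∧ ¬ C.adj (f (Sum.inr (i, true))) (f (Sum.inr (i, false))) := by
  simp [trouble]

theorem mem_cls (C : Core V ι) (a w : V) : w ∈ C.cls a ↔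
    w ∈ C.W ∧ ((∀ i ∈ C.J, C.sd w i = C.sd a i) ∨ ∀ i ∈ C.J, C.sd w i ≠ C.sd a i) := by
  simp [cls]

theorem mem_part (C : Core V ι) (a : V) (i : ι) (b : Bool) (w : V) :
    w ∈ C.part a i b ↔ w ∈ C.cls a ∧ C.sd w i = b := by
  simp [part]

theorem mem_used (C : Core V ι) (f : Slot ι → V) (w : V) :
    w ∈ C.used f ↔ ∃ s ∈ C.slots, f s = w := by
  simp only [used, mem_image]

theorem mem_inside (C : Core V ι) (a : V) (f : Slot ι → V) (i : ι) :
    i ∈ C.inside a f ↔ i ∈ C.K ∧ ∀ b, f (Sum.inr (i, b)) ∈ C.cls a := by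
  simp only [inside, mem_filter]

theorem mem_outside (C : Core V ι) (a : V) (f : Slot ι → V) (i : ι) :
    i ∈ C.outside a f ↔ i ∈ C.K ∧ ∀ b, f (Sum.inr (i, b)) ∉ C.cls a := by
  simp only [outside, mem_filter]

theorem mem_hits (C : Core V ι) (D : Finset V) (f : Slot ι → V) (o : ι) :
    o ∈ C.hits D f ↔ o ∈ C.O ∧ f (Sum.inl o) ∈ D := by
  simp only [hits, mem_filter]

theorem cls_self (C : Core V ι) {a : V} (ha : a ∈ C.W) : a ∈ C.cls a :=
  (C.mem_cls a a).2 ⟨ha, Or.inl fun _ _ => rfl⟩

/-- ROW out. Two vertices of `W`, one in the class of `a` and the other one not, are adjacent. -/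
theorem adj_out (C : Core V ι) (a w w' : V) (hw : w ∈ C.cls a) (hw' : w' ∈ C.W)
    (hn : w' ∉ C.cls a) : C.adj w w' := by
  by_contra hadj
  have hw1 := (mem_cls C a w).1 hw
  have hne : w ≠ w' := fun h => hn (h ▸ hw)
  have hanti := C.anti w hw1.1 w' hw' hne hadj
  apply hn
  rw [mem_cls]
  refine ⟨hw', ?_⟩
  rcases hw1.2 with h | h
  · refine Or.inr fun i hi => ?_
    have h1 := hanti i hi
    rw [h i hi] at h1
    exact fun h2 => h1 h2.symm
  · refine Or.inl fun i hi => ?_
    have h1 := hanti i hi
    have h2 := h i hi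
    revert h1 h2
    cases C.sd w i <;> cases C.sd w' i <;> cases C.sd a i <;> simp

/-- Every element of a class determines it. -/
theorem cls_eq (C : Core V ι) (a w : V) (hw : w ∈ C.cls a) : C.cls w = C.cls a := by
  obtain ⟨_, h⟩ := (C.mem_cls a w).1 hw
  have key : ∀ x y z : Bool, x ≠ y → y ≠ z → x = z := by decide
  ext u
  rw [C.mem_cls, C.mem_cls]
  refine and_congr_right fun _ => ?_
  rcases h with h | h
  · constructor
    · rintro (h1 | h1)
      · exact Or.inl fun i hi => (h1 i hi).trans (h i hi)
      · exact Or.inr fun i hi => fun h2 => h1 i hi (h2.trans (h i hi).symm)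
    · rintro (h1 | h1)
      · exact Or.inl fun i hi => (h1 i hi).trans (h i hi).symm
      · exact Or.inr fun i hi => fun h2 => h1 i hi (h2.trans (h i hi))
  · constructor
    · rintro (h1 | h1)
      · exact Or.inr fun i hi => fun h2 => h i hi ((h1 i hi).symm.trans h2)
      · exact Or.inl fun i hi => key _ _ _ (h1 i hi) (h i hi)
    · rintro (h1 | h1)
      · exact Or.inr fun i hi => fun h2 => h i hi (h2.symm.trans (h1 i hi))
      · exact Or.inl fun i hi => key _ _ _ (h1 i hi) (h i hi).symm

/-- ROW par (1). Two vertices of a class on the same side of one pair are on the same side of all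
pairs. -/
theorem same_side (C : Core V ι) (a w w' : V) (hw : w ∈ C.cls a) (hw' : w' ∈ C.cls a) (i : ι)
    (hi : i ∈ C.J) (h : C.sd w i = C.sd w' i) (i' : ι) (hi' : i' ∈ C.J) :
    C.sd w i' = C.sd w' i' := by
  have h1 := ((mem_cls C a w).1 hw).2
  have h2 := ((mem_cls C a w').1 hw').2
  rcases h1 with h1 | h1 <;> rcases h2 with h2 | h2
  · rw [h1 i' hi', h2 i' hi']
  · exfalso
    apply h2 i hi
    rw [← h, h1 i hi]
  · exfalso
    apply h1 i hi
    rw [h, h2 i hi]
  · have e1 := h1 i' hi'
    have e2 := h2 i' hi'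
    revert e1 e2
    cases C.sd w i' <;> cases C.sd w' i' <;> cases C.sd a i' <;> simp

/-- ROW par (2). -/
theorem other_side (C : Core V ι) (a w w' : V) (hw : w ∈ C.cls a) (hw' : w' ∈ C.cls a) (i : ι)
    (hi : i ∈ C.J) (h : C.sd w i ≠ C.sd w' i) (i' : ι) (hi' : i' ∈ C.J) :
    C.sd w i' ≠ C.sd w' i' := by
  intro he
  exact h (same_side C a w w' hw hw' i' hi' he i hi)

/-- ROW par (3). The places of a pair in trouble are in one class. -/
theorem trouble_inside (C : Core V ι) (f : Slot ι → V) (hf : C.IsState f) (i : ι)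
    (hi : i ∈ C.trouble f) : i ∈ C.inside (f (Sum.inr (i, true))) f := by
  have h1 := (mem_trouble C f i).1 hi
  have hm : ∀ b, f (Sum.inr (i, b)) ∈ C.W := fun b =>
    hf.mem _ ((mem_slots_inr C i b).2 h1.1)
  rw [mem_inside]
  refine ⟨h1.1, fun b => ?_⟩
  cases b with
  | true => exact cls_self C (hm true)
  | false =>
    by_contra hcon
    exact h1.2 (adj_out C _ _ _ (cls_self C (hm true)) (hm false) hcon)

/-- ROW upd. Changing one place `inr (i, b)` of a state to an unused vertex on the right side
gives a state. -/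
theorem isState_update (C : Core V ι) [DecidableEq ι] (f : Slot ι → V) (hf : C.IsState f) (i : ι)
    (hi : i ∈ C.K) (b : Bool) (u : V) (hu : u ∈ C.W) (hun : u ∉ C.used f)
    (hs : C.sd u i = b) : C.IsState (Function.update f (Sum.inr (i, b)) u) := by
  have hne : ∀ s ∈ C.slots, f s ≠ u := fun s hs' h => hun ((C.mem_used f u).2 ⟨s, hs', h⟩)
  have hmem : Sum.inr (i, b) ∈ C.slots := (C.mem_slots_inr i b).2 hi
  refine ⟨fun s hs' => ?_, fun s hs' s' hs'' h => ?_, fun o ho => ?_, fun i' hi' b' => ?_⟩
  · by_cases h : s = Sum.inr (i, b)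
    · rw [h, Function.update_self]
      exact hu
    · rw [Function.update_of_ne h]
      exact hf.mem s hs'
  · by_cases h1 : s = Sum.inr (i, b)
    · by_cases h2 : s' = Sum.inr (i, b)
      · exact h1.trans h2.symm
      · rw [h1, Function.update_self, Function.update_of_ne h2] at h
        exact absurd h.symm (hne s' hs'')
    · by_cases h2 : s' = Sum.inr (i, b)
      · rw [h2, Function.update_self, Function.update_of_ne h1] at h
        exact absurd h (hne s hs')
      · rw [Function.update_of_ne h1, Function.update_of_ne h2] at h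
        exact hf.inj s hs' s' hs'' h
  · rw [Function.update_of_ne (by simp)]
    exact hf.con o ho
  · by_cases h : (Sum.inr (i', b') : Slot ι) = Sum.inr (i, b)
    · rw [h, Function.update_self]
      have h1 := Prod.mk.inj (Sum.inr.inj h)
      rw [h1.1, h1.2]
      exact hs
    · rw [Function.update_of_ne h]
      exact hf.side i' hi' b'

/-- ROW one. (S1) In a minimal state every unused vertex is in the class of every pair in
trouble. (Otherwise `isState_update` at `inr (i, sd u i)`; by `adj_out` the pair is no longer in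
trouble, the other pairs have not changed.) -/
theorem unused_mem (C : Core V ι) (f : Slot ι → V) (hf : C.IsMin f) (i : ι)
    (hi : i ∈ C.trouble f) (u : V) (hu : u ∈ C.W) (hun : u ∉ C.used f) :
    u ∈ C.cls (f (Sum.inr (i, true))) := by
  classical
  by_contra hcon
  have hiK : i ∈ C.K := ((C.mem_trouble f i).1 hi).1
  have hin := ((C.mem_inside _ f i).1 (C.trouble_inside f hf.1 i hi)).2
  have hadj : ∀ b, C.adj (f (Sum.inr (i, b))) u := fun b => C.adj_out _ _ u (hin b) hu hcon
  have hg := C.isState_update f hf.1 i hiK (C.sd u i) u hu hun rfl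
  have hlt : (C.trouble (Function.update f (Sum.inr (i, C.sd u i)) u)).card < (C.trouble f).card := by
    refine Finset.card_lt_card ((Finset.ssubset_iff_of_subset ?_).2 ⟨i, hi, ?_⟩)
    · intro i' hi'
      obtain ⟨h1, h2⟩ := (C.mem_trouble _ i').1 hi'
      refine (C.mem_trouble f i').2 ⟨h1, ?_⟩
      by_cases h : i' = i
      · rw [h]
        exact ((C.mem_trouble f i).1 hi).2
      · rw [Function.update_of_ne (by simp [h]), Function.update_of_ne (by simp [h])] at h2
        exact h2
    · intro h
      have h2 := ((C.mem_trouble _ i).1 h).2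
      apply h2
      cases hb : C.sd u i with
      | true =>
        rw [Function.update_self, Function.update_of_ne (by simp)]
        exact C.symm _ _ (hadj false)
      | false =>
        rw [Function.update_self, Function.update_of_ne (by simp)]
        exact hadj true
  exact absurd (hf.2 _ hg) (not_le.2 hlt)

/-- ROW fou. (S4) In a minimal state with a pair in trouble of class `U` and a pair `i'` outside `U`
every vertex of `W` is in use. (If `v` is unused then `v ∈ U` by `unused_mem`;
`g = update f (inr (i', sd v i')) v` is a state, `i'` is not in trouble in `g` by `adj_out`, so `g`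
is minimal, `i` is in trouble, and the old vertex `f (inr (i', sd v i'))`, which is not in `U`, is
unused in `g`: contradiction to `unused_mem` for `g`.) -/
theorem all_used (C : Core V ι) (f : Slot ι → V) (hf : C.IsMin f) (i : ι)
    (hi : i ∈ C.trouble f) (hout : (C.outside (f (Sum.inr (i, true))) f).Nonempty) :
    ∀ u ∈ C.W, u ∈ C.used f := by
  classical
  intro u hu
  by_contra hun
  have hua := C.unused_mem f hf i hi u hu hun
  obtain ⟨i', hi'⟩ := hout
  rw [mem_outside] at hi'
  obtain ⟨hK', hb'⟩ := hi'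
  have hiK : i ∈ C.K := ((C.mem_trouble f i).1 hi).1
  have haW : f (Sum.inr (i, true)) ∈ C.W := hf.1.mem _ ((C.mem_slots_inr i true).2 hiK)
  have hne : i' ≠ i := by
    rintro rfl
    exact hb' true (C.cls_self haW)
  set b := C.sd u i' with hb
  set g := Function.update f (Sum.inr (i', b)) u with hg
  have hgS : C.IsState g := C.isState_update f hf.1 i' hK' b u hu hun rfl
  have hgb : g (Sum.inr (i', b)) = u := by rw [hg, Function.update_self]
  have hgo : ∀ s, s ≠ Sum.inr (i', b) → g s = f s := fun s hs => by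
    rw [hg, Function.update_of_ne hs]
  have hgj : ∀ j, j ≠ i' → ∀ c, g (Sum.inr (j, c)) = f (Sum.inr (j, c)) := fun j hj c =>
    hgo _ (by
      intro h
      exact hj (congrArg Prod.fst (Sum.inr.inj h)))
  have hn' : i' ∉ C.trouble g := by
    intro h
    refine ((C.mem_trouble g i').1 h).2 ?_
    have hW : ∀ c, f (Sum.inr (i', c)) ∈ C.W := fun c => hf.1.mem _ ((C.mem_slots_inr i' c).2 hK')
    rcases hbb : b with _ | _
    · have h1 : g (Sum.inr (i', false)) = u := by rw [← hbb]; exact hgb
      have h2 : g (Sum.inr (i', true)) = f (Sum.inr (i', true)) := hgo _ (by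
        rw [hbb]; simp)
      rw [h1, h2]
      exact C.symm _ _ (C.adj_out _ u _ hua (hW true) (hb' true))
    · have h1 : g (Sum.inr (i', true)) = u := by rw [← hbb]; exact hgb
      have h2 : g (Sum.inr (i', false)) = f (Sum.inr (i', false)) := hgo _ (by
        rw [hbb]; simp)
      rw [h1, h2]
      exact C.adj_out _ u _ hua (hW false) (hb' false)
  have hsub : C.trouble g ⊆ C.trouble f := by
    intro j hj
    have hji : j ≠ i' := by
      rintro rfl
      exact hn' hj
    rw [mem_trouble] at hj ⊢
    rw [hgj j hji, hgj j hji] at hj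
    exact hj
  have hgM : C.IsMin g := ⟨hgS, fun h hh => (Finset.card_le_card hsub).trans (hf.2 h hh)⟩
  have hig : i ∈ C.trouble g := by
    rw [mem_trouble, hgj i hne.symm, hgj i hne.symm]
    exact (C.mem_trouble f i).1 hi
  have hsl : Sum.inr (i', b) ∈ C.slots := (C.mem_slots_inr i' b).2 hK'
  have hwn : f (Sum.inr (i', b)) ∉ C.used g := by
    intro h
    obtain ⟨s, hs, hsw⟩ := (C.mem_used g _).1 h
    by_cases hse : s = Sum.inr (i', b)
    · rw [hse, hgb] at hsw
      exact hun ((C.mem_used f u).2 ⟨_, hsl, hsw.symm⟩)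
    · rw [hgo s hse] at hsw
      exact hse (hf.1.inj _ hs _ hsl hsw)
  have hfin := C.unused_mem g hgM i hig _ (hf.1.mem _ hsl) hwn
  rw [hgj i hne.symm] at hfin
  exact hb' b hfin

/-- ROW cnt (1). If all unused vertices are in the class of `a`: the number of vertices outside
this class. (`W \ U` is the bijective image of the slots `s` with `f s ∉ U`.) -/
theorem count_out (C : Core V ι) [DecidableEq V] (f : Slot ι → V) (hf : C.IsState f) (a : V)
    (h : ∀ u ∈ C.W, u ∉ C.used f → u ∈ C.cls a) :
    (C.W \ C.cls a).card + (C.hits (C.cls a) f).card + (C.inside a f).card =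
      C.O.card + C.K.card + (C.outside a f).card := by
  classical
  have h1 : (C.slots.filter fun s => f s ∉ C.cls a).image f = C.W \ C.cls a := by
    ext w
    simp only [mem_image, mem_filter, mem_sdiff]
    constructor
    · rintro ⟨s, ⟨hs, hsn⟩, rfl⟩
      exact ⟨hf.mem s hs, hsn⟩
    · rintro ⟨hw, hwn⟩
      by_cases hu : w ∈ C.used f
      · obtain ⟨s, hs, hsw⟩ := (C.mem_used f w).1 hu
        exact ⟨s, ⟨hs, by rw [hsw]; exact hwn⟩, hsw⟩
      · exact absurd (h w hw hu) hwn
  have h2 : (C.W \ C.cls a).card = (C.slots.filter fun s => f s ∉ C.cls a).card := by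
    rw [← h1, card_image_of_injOn]
    intro s hs s' hs' hss
    rw [mem_coe, mem_filter] at hs hs'
    exact hf.inj s hs.1 s' hs'.1 hss
  have h3 : (C.slots.filter fun s => f s ∉ C.cls a).card =
      (∑ o ∈ C.O, if f (Sum.inl o) ∉ C.cls a then 1 else 0) +
        ∑ i ∈ C.K, ∑ b : Bool, if f (Sum.inr (i, b)) ∉ C.cls a then 1 else 0 := by
    rw [card_filter]
    unfold slots
    rw [sum_disjSum, sum_product]
  have h4 : (∑ o ∈ C.O, if f (Sum.inl o) ∉ C.cls a then 1 else 0) + (C.hits (C.cls a) f).card =
      C.O.card := by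
    unfold hits
    rw [card_filter, ← sum_add_distrib, card_eq_sum_ones]
    apply sum_congr rfl
    intro o _
    by_cases ho : f (Sum.inl o) ∈ C.cls a
    · simp [ho]
    · simp [ho]
  have h5 : (∑ i ∈ C.K, ∑ b : Bool, if f (Sum.inr (i, b)) ∉ C.cls a then 1 else 0) +
      (C.inside a f).card = C.K.card + (C.outside a f).card := by
    unfold inside outside
    rw [card_filter, card_filter, ← sum_add_distrib, card_eq_sum_ones, ← sum_add_distrib]
    apply sum_congr rfl
    intro i _
    simp only [Fintype.sum_bool, Bool.forall_bool]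
    by_cases ht : f (Sum.inr (i, true)) ∈ C.cls a <;>
      by_cases hb : f (Sum.inr (i, false)) ∈ C.cls a <;> simp [ht, hb]
  omega

/-- ROW cnt (2). -/
theorem count_all (C : Core V ι) (f : Slot ι → V) (hf : C.IsState f)
    (h : ∀ u ∈ C.W, u ∈ C.used f) : C.W.card = C.O.card + 2 * C.K.card := by
  classical
  have h1 : C.W = C.slots.image f := by
    ext w
    rw [mem_image]
    constructor
    · intro hw
      exact (C.mem_used f w).1 (h w hw)
    · rintro ⟨s, hs, rfl⟩
      exact hf.mem s hs
  rw [h1, card_image_of_injOn]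
  · unfold slots
    rw [card_disjSum, card_product, card_univ, Fintype.card_bool, mul_comm]
  · intro s hs s' hs' hss
    exact hf.inj s hs s' hs' hss

end Core

end Kal
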