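import Pool.Agent.Kal.Moves

set_option autoImplicit false

namespace Kal

open Finset

/-- ROW ext. Extension of an injection. (`Finset.exists_equiv_extend_of_card_eq` is similar; or
inject `A \ D` into `X \ D.image m`.) -/
theorem exists_extension {α β : Type} [DecidableEq α] [DecidableEq β] (A D : Finset α)
    (X : Finset β) (hD : D ⊆ A) (hc : A.card ≤ X.card) (m : α → β) (hm : ∀ a ∈ D, m a ∈ X)
    (hi : ∀ a ∈ D, ∀ b ∈ D, m a = m b → a = b) :
    ∃ h : α → β, (∀ a ∈ A, h a ∈ X) ∧ (∀ a ∈ A, ∀ b ∈ A, h a = h b → a = b) ∧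
      ∀ a ∈ D, h a = m a := by
  have hsub : D.image m ⊆ X := by
    intro x hx
    rw [Finset.mem_image] at hx
    obtain ⟨a, ha, rfl⟩ := hx
    exact hm a ha
  have hcard : (D.image m).card = D.card :=
    Finset.card_image_of_injOn (fun a ha b hb hab => hi a ha b hb hab)
  have h1 : (A \ D).card = A.card - D.card := Finset.card_sdiff_of_subset hD
  have h2 : (X \ D.image m).card = X.card - D.card := by
    rw [Finset.card_sdiff_of_subset hsub, hcard]
  have h3 : Fintype.card (A \ D : Finset α) ≤ Fintype.card (X \ D.image m : Finset β) := by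
    rw [Fintype.card_coe, Fintype.card_coe, h1, h2]
    omega
  obtain ⟨e⟩ := Function.Embedding.nonempty_of_card_le h3
  refine ⟨fun a => if ha : a ∈ A \ D then (e ⟨a, ha⟩ : β) else m a, ?_, ?_, ?_⟩
  · intro a ha
    by_cases had : a ∈ A \ D
    · simp only [had, dif_pos]
      exact (Finset.mem_sdiff.mp (e ⟨a, had⟩).2).1
    · simp only [had, dif_neg, not_false_eq_true]
      have haD : a ∈ D := by
        by_contra hcon
        exact had (Finset.mem_sdiff.mpr ⟨ha, hcon⟩)
      exact hm a haD
  · intro a ha b hb hab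
    by_cases had : a ∈ A \ D
    · by_cases hbd : b ∈ A \ D
      · simp only [had, hbd, dif_pos] at hab
        have := e.injective (Subtype.ext hab)
        exact congrArg Subtype.val this
      · exfalso
        simp only [had, hbd, dif_pos, dif_neg, not_false_eq_true] at hab
        have hbD : b ∈ D := by
          by_contra hcon
          exact hbd (Finset.mem_sdiff.mpr ⟨hb, hcon⟩)
        have hnot := (Finset.mem_sdiff.mp (e ⟨a, had⟩).2).2
        rw [hab] at hnot
        exact hnot (Finset.mem_image_of_mem m hbD)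
    · have haD : a ∈ D := by
        by_contra hcon
        exact had (Finset.mem_sdiff.mpr ⟨ha, hcon⟩)
      by_cases hbd : b ∈ A \ D
      · exfalso
        simp only [had, hbd, dif_pos, dif_neg, not_false_eq_true] at hab
        have hnot := (Finset.mem_sdiff.mp (e ⟨b, hbd⟩).2).2
        rw [← hab] at hnot
        exact hnot (Finset.mem_image_of_mem m haD)
      · simp only [had, hbd, dif_neg, not_false_eq_true] at hab
        have hbD : b ∈ D := by
          by_contra hcon
          exact hbd (Finset.mem_sdiff.mpr ⟨hb, hcon⟩)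
        exact hi a haD b hbD hab
  · intro a ha
    have had : a ∉ A \ D := fun h => (Finset.mem_sdiff.mp h).2 ha
    simp only [had, dif_neg, not_false_eq_true]

variable {V ι : Type}

namespace Core

/-- ROW rea. REASSIGN: `U` = the class of `a`; `h b i` (for the pairs `i` inside `U`) are different
vertices of `U` on side `b` of `i0`, not used as connectors. Then there is a new state with the same
connectors in which the pair `i` inside `U` has the places `h true i`, `h false i`, the places in
`U` of the other pairs are still in `U`, and the places outside `U` are unchanged.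
(For `b : Bool` let `A b` be the set of slots `inr (i, c)` in use with `f (inr (i, c))` in `part a i0 b`,
`D b` the part of it with `i ∈ inside a f`, `X b` the set of vertices of `part a i0 b` that are not
connectors. `f` injects `A b` into `X b`. Extend `inr (i, c) ↦ h b i` from `D b` to `H b` on `A b` by
`exists_extension`; `g (inl o) = f (inl o)`, `g s = H (sd (f s) i0) s` if `s = inr _` and
`f s ∈ cls a`, otherwise `g s = f s`. Sides by `same_side`.) -/
theorem reassign (C : Core V ι) (f : Slot ι → V) (hf : C.IsState f) (a : V) (i0 : ι)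
    (hi0 : i0 ∈ C.J) (h : Bool → ι → V)
    (hh : ∀ b, ∀ i ∈ C.inside a f, h b i ∈ C.part a i0 b ∧ ∀ o ∈ C.O, f (Sum.inl o) ≠ h b i)
    (hinj : ∀ b, ∀ i ∈ C.inside a f, ∀ i' ∈ C.inside a f, h b i = h b i' → i = i') :
    ∃ g, C.IsState g ∧ (∀ o, g (Sum.inl o) = f (Sum.inl o)) ∧
      (∀ i ∈ C.inside a f, ∀ b, g (Sum.inr (i, C.sd (h b i) i)) = h b i) ∧
      (∀ i ∈ C.K, i ∉ C.inside a f → ∀ b,
        (f (Sum.inr (i, b)) ∈ C.cls a → g (Sum.inr (i, b)) ∈ C.cls a) ∧
        (f (Sum.inr (i, b)) ∉ C.cls a → g (Sum.inr (i, b)) = f (Sum.inr (i, b)))) := by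
  classical
  have hsl : ∀ p : ι × Bool, Sum.inr p ∈ C.slots ↔ p.1 ∈ C.K := fun p => C.mem_slots_inr p.1 p.2
  let A : Bool → Finset (Slot ι) := fun b =>
    C.slots.filter fun s => (∃ p, s = Sum.inr p) ∧ f s ∈ C.part a i0 b
  let D : Bool → Finset (Slot ι) := fun b =>
    (A b).filter fun s => ∃ p : ι × Bool, s = Sum.inr p ∧ p.1 ∈ C.inside a f
  let X : Bool → Finset V := fun b =>
    (C.part a i0 b).filter fun v => ∀ o ∈ C.O, f (Sum.inl o) ≠ v
  let m : Bool → Slot ι → V := fun b s => Sum.elim (fun _ => a) (fun p => h b p.1) s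
  have hA : ∀ b s, s ∈ A b ↔ s ∈ C.slots ∧ (∃ p, s = Sum.inr p) ∧ f s ∈ C.part a i0 b :=
    fun b s => mem_filter
  have hD : ∀ b s, s ∈ D b ↔ s ∈ A b ∧ ∃ p : ι × Bool, s = Sum.inr p ∧ p.1 ∈ C.inside a f :=
    fun b s => mem_filter
  have hX : ∀ b v, v ∈ X b ↔ v ∈ C.part a i0 b ∧ ∀ o ∈ C.O, f (Sum.inl o) ≠ v :=
    fun b v => mem_filter
  have hAX : ∀ b, ∀ s ∈ A b, f s ∈ X b := by
    intro b s hs
    obtain ⟨h1, ⟨p, h2⟩, h3⟩ := (hA b s).1 hs
    refine (hX b _).2 ⟨h3, fun o ho he => ?_⟩
    have h4 := hf.inj _ ((C.mem_slots_inl o).2 ho) _ h1 he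
    rw [h2] at h4
    exact absurd h4 (by simp)
  have hcard : ∀ b, (A b).card ≤ (X b).card := fun b =>
    card_le_card_of_injOn f (fun s hs => hAX b s hs) (fun s hs s' hs' he =>
      hf.inj _ ((hA b s).1 hs).1 _ ((hA b s').1 hs').1 he)
  have hext : ∀ b, ∃ H : Slot ι → V, (∀ s ∈ A b, H s ∈ X b) ∧
      (∀ s ∈ A b, ∀ s' ∈ A b, H s = H s' → s = s') ∧ ∀ s ∈ D b, H s = m b s := by
    intro b
    refine exists_extension (A b) (D b) (X b) (filter_subset _ _) (hcard b) (m b) ?_ ?_
    · intro s hs
      obtain ⟨_, p, h2, h3⟩ := (hD b s).1 hs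
      rw [h2]
      exact (hX b _).2 (hh b p.1 h3)
    · intro s hs s' hs' he
      obtain ⟨h1, ⟨i, c⟩, h2, h3⟩ := (hD b s).1 hs
      obtain ⟨h1', ⟨i', c'⟩, h2', h3'⟩ := (hD b s').1 hs'
      subst h2 h2'
      have hii : i = i' := hinj b i h3 i' h3' he
      subst hii
      have hiK : i ∈ C.K := ((C.mem_inside a f i).1 h3).1
      obtain ⟨k1, k2⟩ := (C.mem_part _ _ _ _).1 ((hA b _).1 h1).2.2
      obtain ⟨k1', k2'⟩ := (C.mem_part _ _ _ _).1 ((hA b _).1 h1').2.2
      have hs1 := C.same_side a _ _ k1 k1' i0 hi0 (by rw [k2, k2']) i (C.KJ hiK)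
      rw [hf.side i hiK c, hf.side i hiK c'] at hs1
      rw [hs1]
  choose H hHX hHi hHD using hext
  let g : Slot ι → V := Sum.elim (fun o => f (Sum.inl o)) (fun p =>
    if f (Sum.inr p) ∈ C.cls a then H (C.sd (f (Sum.inr p)) i0) (Sum.inr p) else f (Sum.inr p))
  have hgl : ∀ o, g (Sum.inl o) = f (Sum.inl o) := fun o => rfl
  have hgr1 : ∀ p, f (Sum.inr p) ∈ C.cls a →
      g (Sum.inr p) = H (C.sd (f (Sum.inr p)) i0) (Sum.inr p) := fun p hp => if_pos hp
  have hgr2 : ∀ p, f (Sum.inr p) ∉ C.cls a → g (Sum.inr p) = f (Sum.inr p) := fun p hp => if_neg hp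
  have hinA : ∀ p : ι × Bool, p.1 ∈ C.K → f (Sum.inr p) ∈ C.cls a →
      Sum.inr p ∈ A (C.sd (f (Sum.inr p)) i0) := by
    intro p hp hc
    exact (hA _ _).2 ⟨(hsl p).2 hp, ⟨p, rfl⟩, (C.mem_part _ _ _ _).2 ⟨hc, rfl⟩⟩
  have hgX : ∀ p : ι × Bool, p.1 ∈ C.K → f (Sum.inr p) ∈ C.cls a →
      g (Sum.inr p) ∈ X (C.sd (f (Sum.inr p)) i0) := by
    intro p hp hc
    rw [hgr1 p hc]
    exact hHX _ _ (hinA p hp hc)
  have hgc : ∀ p : ι × Bool, p.1 ∈ C.K → f (Sum.inr p) ∈ C.cls a → g (Sum.inr p) ∈ C.cls a ∧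
      C.sd (g (Sum.inr p)) i0 = C.sd (f (Sum.inr p)) i0 := by
    intro p hp hc
    exact (C.mem_part _ _ _ _).1 ((hX _ _).1 (hgX p hp hc)).1
  refine ⟨g, ⟨?_, ?_, ?_, ?_⟩, hgl, ?_, ?_⟩
  · intro s hs
    rcases s with o | p
    · exact hf.mem _ hs
    · by_cases hc : f (Sum.inr p) ∈ C.cls a
      · exact ((C.mem_cls _ _).1 (hgc p ((hsl p).1 hs) hc).1).1
      · rw [hgr2 p hc]
        exact hf.mem _ hs
  · have key : ∀ (o : ι) (p : ι × Bool), o ∈ C.O → p.1 ∈ C.K →
        g (Sum.inl o) ≠ g (Sum.inr p) := by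
      intro o p ho hp he
      by_cases hc : f (Sum.inr p) ∈ C.cls a
      · exact ((hX _ _).1 (hgX p hp hc)).2 o ho he
      · rw [hgr2 p hc] at he
        have h4 := hf.inj _ ((C.mem_slots_inl o).2 ho) _ ((hsl p).2 hp) he
        exact absurd h4 (by simp)
    intro s hs s' hs' he
    rcases s with o | p <;> rcases s' with o' | p'
    · exact hf.inj _ hs _ hs' he
    · exact absurd he (key o p' ((C.mem_slots_inl o).1 hs) ((hsl p').1 hs'))
    · exact absurd he.symm (key o' p ((C.mem_slots_inl o').1 hs') ((hsl p).1 hs))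
    · have hp := (hsl p).1 hs
      have hp' := (hsl p').1 hs'
      by_cases hc : f (Sum.inr p) ∈ C.cls a
      · by_cases hc' : f (Sum.inr p') ∈ C.cls a
        · have hb : C.sd (f (Sum.inr p)) i0 = C.sd (f (Sum.inr p')) i0 := by
            rw [← (hgc p hp hc).2, ← (hgc p' hp' hc').2, he]
          have h1 := hinA p hp hc
          have h2 := hinA p' hp' hc'
          rw [← hb] at h2
          refine hHi _ _ h1 _ h2 ?_
          rw [← hgr1 p hc, he, hgr1 p' hc', hb]
        · exfalso
          apply hc'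
          rw [← hgr2 p' hc', ← he]
          exact (hgc p hp hc).1
      · by_cases hc' : f (Sum.inr p') ∈ C.cls a
        · exfalso
          apply hc
          rw [← hgr2 p hc, he]
          exact (hgc p' hp' hc').1
        · rw [hgr2 p hc, hgr2 p' hc'] at he
          exact hf.inj _ hs _ hs' he
  · intro o ho
    exact hf.con o ho
  · intro i hi b
    by_cases hc : f (Sum.inr (i, b)) ∈ C.cls a
    · obtain ⟨h1, h2⟩ := hgc (i, b) hi hc
      have h3 := C.same_side a _ _ h1 hc i0 hi0 h2 i (C.KJ hi)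
      rw [h3]
      exact hf.side i hi b
    · rw [hgr2 (i, b) hc]
      exact hf.side i hi b
  · intro i hi b
    obtain ⟨hiK, hic⟩ := (C.mem_inside a f i).1 hi
    have hc := hic (C.sd (h b i) i)
    obtain ⟨h1, h2⟩ := (C.mem_part _ _ _ _).1 (hh b i hi).1
    have h3 : C.sd (f (Sum.inr (i, C.sd (h b i) i))) i0 = b := by
      rw [C.same_side a _ _ hc h1 i (C.KJ hiK) (hf.side i hiK _) i0 hi0, h2]
    rw [hgr1 _ hc]
    have h4 := hinA (i, C.sd (h b i) i) hiK hc
    rw [h3] at h4 ⊢
    exact hHD b _ ((hD b _).2 ⟨h4, (i, C.sd (h b i) i), rfl, hi⟩)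
  · intro i hi _ b
    exact ⟨fun hc => (hgc (i, b) hi hc).1, fun hc => hgr2 (i, b) hc⟩

/-- ROW rtr. The pairs in trouble after `reassign`. (A pair with exactly one place in `U` is not in
trouble by `adj_out`.) -/
theorem trouble_reassign (C : Core V ι) (f g : Slot ι → V) (hf : C.IsState f)
    (hg : C.IsState g) (a : V) (i0 : ι) (hi0 : i0 ∈ C.J) (h : Bool → ι → V)
    (hh : ∀ b, ∀ i ∈ C.inside a f, h b i ∈ C.part a i0 b)
    (h1 : ∀ i ∈ C.inside a f, ∀ b, g (Sum.inr (i, C.sd (h b i) i)) = h b i)
    (h2 : ∀ i ∈ C.K, i ∉ C.inside a f → ∀ b,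
      (f (Sum.inr (i, b)) ∈ C.cls a → g (Sum.inr (i, b)) ∈ C.cls a) ∧
      (f (Sum.inr (i, b)) ∉ C.cls a → g (Sum.inr (i, b)) = f (Sum.inr (i, b))))
    (i : ι) (hi : i ∈ C.trouble g) :
    (i ∈ C.inside a f ∧ ¬ C.adj (h true i) (h false i)) ∨
      (i ∈ C.outside a f ∧ i ∈ C.trouble f) := by
  obtain ⟨hK, hna⟩ := (C.mem_trouble g i).1 hi
  by_cases hin : i ∈ C.inside a f
  · refine Or.inl ⟨hin, fun hadj => hna ?_⟩
    have ht := (C.mem_part a i0 true _).1 (hh true i hin)
    have hF := (C.mem_part a i0 false _).1 (hh false i hin)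
    have hne : C.sd (h true i) i ≠ C.sd (h false i) i := by
      refine C.other_side a _ _ ht.1 hF.1 i0 hi0 ?_ i (C.KJ hK)
      rw [ht.2, hF.2]
      decide
    have e1 := h1 i hin true
    have e2 := h1 i hin false
    cases ha : C.sd (h true i) i with
    | true =>
      have hb : C.sd (h false i) i = false := by
        cases hb : C.sd (h false i) i with
        | true => exact absurd (ha.trans hb.symm) hne
        | false => rfl
      rw [ha] at e1
      rw [hb] at e2
      rw [e1, e2]
      exact hadj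
    | false =>
      have hb : C.sd (h false i) i = true := by
        cases hb : C.sd (h false i) i with
        | true => rfl
        | false => exact absurd (ha.trans hb.symm) hne
      rw [ha] at e1
      rw [hb] at e2
      rw [e1, e2]
      exact C.symm _ _ hadj
  · refine Or.inr ?_
    have hW : ∀ b, g (Sum.inr (i, b)) ∈ C.W := fun b =>
      hg.mem _ ((C.mem_slots_inr i b).2 hK)
    have key : ∀ b, f (Sum.inr (i, b)) ∉ C.cls a := by
      intro b hb
      have hnb : f (Sum.inr (i, !b)) ∉ C.cls a := by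
        intro hb2
        refine hin ((C.mem_inside a f i).2 ⟨hK, fun b' => ?_⟩)
        by_cases hbb : b' = b
        · rw [hbb]; exact hb
        · have : b' = !b := by cases b <;> cases b' <;> simp_all
          rw [this]; exact hb2
      have g1 := (h2 i hK hin b).1 hb
      have g2 := (h2 i hK hin (!b)).2 hnb
      have g3 : g (Sum.inr (i, !b)) ∉ C.cls a := by rw [g2]; exact hnb
      have had := C.adj_out a _ _ g1 (hW (!b)) g3
      cases b with
      | true => exact hna had
      | false => exact hna (C.symm _ _ had)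
    refine ⟨(C.mem_outside a f i).2 ⟨hK, key⟩, (C.mem_trouble f i).2 ⟨hK, ?_⟩⟩
    rw [← (h2 i hK hin true).2 (key true), ← (h2 i hK hin false).2 (key false)]
    exact hna

/-- ROW hit. Every connector spoils at most one edge of a matching. -/
theorem exists_unhit (C : Core V ι) (f : Slot ι → V) (a : V) (i : ι) (M : Finset (V × V))
    (hM : IsMatching C.adj (C.part a i true) (C.part a i false) M) :
    ∃ M' ⊆ M, (∀ e ∈ M', ∀ o ∈ C.O, f (Sum.inl o) ≠ e.1 ∧ f (Sum.inl o) ≠ e.2) ∧
      M.card ≤ M'.card + (C.hits (ends M) f).card := by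
  classical
  have hside : ∀ e ∈ M, C.sd e.1 i = true ∧ C.sd e.2 i = false := by
    intro e he
    obtain ⟨h1, h2, -⟩ := hM.mem e he
    unfold Core.part at h1 h2
    exact ⟨(Finset.mem_filter.mp h1).2, (Finset.mem_filter.mp h2).2⟩
  refine ⟨M.filter (fun e => ∀ o ∈ C.O, f (Sum.inl o) ≠ e.1 ∧ f (Sum.inl o) ≠ e.2),
    Finset.filter_subset _ _, fun e he => (Finset.mem_filter.mp he).2, ?_⟩
  have hcard : (M.filter (fun e => ¬ ∀ o ∈ C.O, f (Sum.inl o) ≠ e.1 ∧ f (Sum.inl o) ≠ e.2)).card ≤
      (C.hits (ends M) f).card := by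
    refine Finset.card_le_card_of_forall_subsingleton
      (fun e o => f (Sum.inl o) = e.1 ∨ f (Sum.inl o) = e.2) ?_ ?_
    · intro e he
      obtain ⟨heM, hne⟩ := Finset.mem_filter.mp he
      push Not at hne
      obtain ⟨o, ho, hoe⟩ := hne
      have hor : f (Sum.inl o) = e.1 ∨ f (Sum.inl o) = e.2 := by
        by_cases h1 : f (Sum.inl o) = e.1
        · exact Or.inl h1
        · exact Or.inr (hoe h1)
      refine ⟨o, ?_, hor⟩
      unfold Core.hits ends
      rw [Finset.mem_filter, Finset.mem_union, Finset.mem_image, Finset.mem_image]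
      refine ⟨ho, ?_⟩
      rcases hor with h1 | h1
      · exact Or.inl ⟨e, heM, h1.symm⟩
      · exact Or.inr ⟨e, heM, h1.symm⟩
    · intro o _ e he e' he'
      obtain ⟨he1, he2⟩ := he
      obtain ⟨he1', he2'⟩ := he'
      have hM1 : e ∈ M := (Finset.mem_filter.mp he1).1
      have hM2 : e' ∈ M := (Finset.mem_filter.mp he1').1
      obtain ⟨s1, s2⟩ := hside e hM1
      obtain ⟨s1', s2'⟩ := hside e' hM2
      rcases he2 with h1 | h1 <;> rcases he2' with h2 | h2
      · exact hM.inj1 e hM1 e' hM2 (h1.symm.trans h2)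
      · exfalso
        rw [← h1, h2, s2'] at s1
        exact Bool.false_ne_true s1
      · exfalso
        rw [← h1, h2, s1'] at s2
        exact Bool.false_ne_true s2.symm
      · exact hM.inj2 e hM1 e' hM2 (h1.symm.trans h2)
  have hsum : (M.filter (fun e => ∀ o ∈ C.O, f (Sum.inl o) ≠ e.1 ∧ f (Sum.inl o) ≠ e.2)).card +
      (M.filter (fun e => ¬ ∀ o ∈ C.O, f (Sum.inl o) ≠ e.1 ∧ f (Sum.inl o) ≠ e.2)).card = M.card :=
    Finset.card_filter_add_card_filter_not _
  omega

/-- ROW two. (S2) A matching inside the class of a pair in trouble of a minimal state: without the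
edges hit by connectors it has fewer edges than there are pairs inside the class. (Otherwise take
for the pairs inside the class the ends of edges of `M'` (`exists_unhit`): `reassign`, and
`trouble_reassign` gives a state with fewer pairs in trouble: `i` is inside by `trouble_inside`.) -/
theorem matching_bound (C : Core V ι) (f : Slot ι → V) (hf : C.IsMin f) (i : ι)
    (hi : i ∈ C.trouble f) (a : V) (ha : C.cls (f (Sum.inr (i, true))) = C.cls a)
    (M : Finset (V × V)) (hM : IsMatching C.adj (C.part a i true) (C.part a i false) M) :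
    M.card + 1 ≤ (C.inside a f).card + (C.hits (ends M) f).card := by
  classical
  by_contra hcon
  obtain ⟨M', hM'M, hun, hcard⟩ := C.exists_unhit f a i M hM
  have hle : (C.inside a f).card ≤ M'.card := by omega
  obtain ⟨φ, hφ1, hφ2, _⟩ := exists_extension (C.inside a f) ∅ M' (empty_subset _) hle
    (fun _ => (f (Sum.inr (i, true)), f (Sum.inr (i, true))))
    (fun x hx => absurd hx (notMem_empty x)) (fun x hx => absurd hx (notMem_empty x))
  have hiK : i ∈ C.K := ((C.mem_trouble f i).1 hi).1
  have hiJ : i ∈ C.J := C.KJ hiK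
  have hii : i ∈ C.inside a f := by
    have h0 := C.trouble_inside f hf.1 i hi
    rw [C.mem_inside] at h0 ⊢
    rw [← ha]
    exact h0
  let h : Bool → ι → V := fun b j => if b = true then (φ j).1 else (φ j).2
  have ht : ∀ j, h true j = (φ j).1 := fun j => by simp [h]
  have hf' : ∀ j, h false j = (φ j).2 := fun j => by simp [h]
  have hh : ∀ b, ∀ j ∈ C.inside a f, h b j ∈ C.part a i b ∧ ∀ o ∈ C.O, f (Sum.inl o) ≠ h b j := by
    intro b j hj
    have hm := hM.mem (φ j) (hM'M (hφ1 j hj))
    have hu := hun (φ j) (hφ1 j hj)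
    cases b with
    | true =>
      rw [ht]
      exact ⟨hm.1, fun o ho => (hu o ho).1⟩
    | false =>
      rw [hf']
      exact ⟨hm.2.1, fun o ho => (hu o ho).2⟩
  have hinj : ∀ b, ∀ j ∈ C.inside a f, ∀ j' ∈ C.inside a f, h b j = h b j' → j = j' := by
    intro b j hj j' hj' he
    apply hφ2 j hj j' hj'
    cases b with
    | true =>
      rw [ht, ht] at he
      exact hM.inj1 _ (hM'M (hφ1 j hj)) _ (hM'M (hφ1 j' hj')) he
    | false =>
      rw [hf', hf'] at he
      exact hM.inj2 _ (hM'M (hφ1 j hj)) _ (hM'M (hφ1 j' hj')) he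
  obtain ⟨g, hg, _, h1, h2⟩ := C.reassign f hf.1 a i hiJ h hh hinj
  have hsub : C.trouble g ⊆ (C.trouble f).erase i := by
    intro j hj
    rcases C.trouble_reassign f g hf.1 hg a i hiJ h (fun b j hj => (hh b j hj).1) h1 h2 j hj with h3 | h3
    · exfalso
      apply h3.2
      rw [ht, hf']
      exact (hM.mem (φ j) (hM'M (hφ1 j h3.1))).2.2
    · rw [mem_erase]
      refine ⟨?_, h3.2⟩
      rintro rfl
      exact ((C.mem_outside a f j).1 h3.1).2 true (((C.mem_inside a f j).1 hii).2 true)
  have h4 := card_le_card hsub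
  have h5 := hf.2 g hg
  have h6 := card_erase_add_one hi
  omega

private theorem tig1_ends (C : Core V ι) (a : V) (i : ι) (N : Finset (V × V))
    (hN : IsMatching C.adj (C.part a i true) (C.part a i false) N) (x : V) (hx : x ∈ ends N) :
    x ∈ C.cls a := by
  classical
  rw [ends, mem_union, mem_image, mem_image] at hx
  rcases hx with ⟨e, he, h5⟩ | ⟨e, he, h5⟩
  · rw [← h5]
    exact ((C.mem_part _ _ _ _).1 (hN.mem e he).1).1
  · rw [← h5]
    exact ((C.mem_part _ _ _ _).1 (hN.mem e he).2.1).1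

private theorem tig1_sub (C : Core V ι) (f : Slot ι → V) (a : V) (i : ι) (N : Finset (V × V))
    (hN : IsMatching C.adj (C.part a i true) (C.part a i false) N) :
    C.hits (ends N) f ⊆ C.hits (C.cls a) f := by
  intro o ho
  obtain ⟨h3, h4⟩ := (C.mem_hits _ f o).1 ho
  exact (C.mem_hits _ f o).2 ⟨h3, tig1_ends C a i N hN _ h4⟩

/-- ROW tig (1). If `N` is as large as possible then all connectors in the class are vertices of
`N`. -/
theorem hits_mem (C : Core V ι) (f : Slot ι → V) (hf : C.IsMin f) (i : ι)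
    (hi : i ∈ C.trouble f) (a : V) (ha : C.cls (f (Sum.inr (i, true))) = C.cls a)
    (N : Finset (V × V)) (hN : IsMatching C.adj (C.part a i true) (C.part a i false) N)
    (hc : (C.inside a f).card + (C.hits (C.cls a) f).card ≤ N.card + 1) (o : ι) (ho : o ∈ C.O)
    (hm : f (Sum.inl o) ∈ C.cls a) : f (Sum.inl o) ∈ ends N := by
  have h1 := C.matching_bound f hf i hi a ha N hN
  have h2 : C.hits (ends N) f = C.hits (C.cls a) f :=
    eq_of_subset_of_card_le (tig1_sub C f a i N hN) (by omega)
  have h3 : o ∈ C.hits (ends N) f := by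
    rw [h2]
    exact (C.mem_hits _ f o).2 ⟨ho, hm⟩
  exact ((C.mem_hits _ f o).1 h3).2

/-- ROW tig (2). ... and no edge can be added. (`matching_bound` for `insert (p, q) N`.) -/
theorem not_adj_of_max (C : Core V ι) (f : Slot ι → V) (hf : C.IsMin f) (i : ι)
    (hi : i ∈ C.trouble f) (a : V) (ha : C.cls (f (Sum.inr (i, true))) = C.cls a)
    (N : Finset (V × V)) (hN : IsMatching C.adj (C.part a i true) (C.part a i false) N)
    (hc : (C.inside a f).card + (C.hits (C.cls a) f).card ≤ N.card + 1) (p q : V)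
    (hp : p ∈ C.part a i true) (hq : q ∈ C.part a i false) (hpN : p ∉ ends N)
    (hqN : q ∉ ends N) : ¬ C.adj p q := by
  classical
  intro hadj
  have hp1 : ∀ e ∈ N, e.1 ≠ p := by
    intro e he h
    apply hpN
    rw [ends, mem_union, mem_image]
    exact Or.inl ⟨e, he, h⟩
  have hq1 : ∀ e ∈ N, e.2 ≠ q := by
    intro e he h
    apply hqN
    rw [ends, mem_union, mem_image, mem_image]
    exact Or.inr ⟨e, he, h⟩
  have hnot : (p, q) ∉ N := fun h => hp1 _ h rfl
  have hM : IsMatching C.adj (C.part a i true) (C.part a i false) (insert (p, q) N) := by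
    refine ⟨?_, ?_, ?_⟩
    · intro e he
      rcases mem_insert.1 he with h | h
      · rw [h]
        exact ⟨hp, hq, hadj⟩
      · exact hN.mem e h
    · intro e he e' he' hee
      rcases mem_insert.1 he with h | h <;> rcases mem_insert.1 he' with h' | h'
      · rw [h, h']
      · rw [h] at hee
        exact absurd hee.symm (hp1 e' h')
      · rw [h'] at hee
        exact absurd hee (hp1 e h)
      · exact hN.inj1 e h e' h' hee
    · intro e he e' he' hee
      rcases mem_insert.1 he with h | h <;> rcases mem_insert.1 he' with h' | h'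
      · rw [h, h']
      · rw [h] at hee
        exact absurd hee.symm (hq1 e' h')
      · rw [h'] at hee
        exact absurd hee (hq1 e h)
      · exact hN.inj2 e h e' h' hee
  have h1 := C.matching_bound f hf i hi a ha (insert (p, q) N) hM
  rw [card_insert_of_notMem hnot] at h1
  have h2 := card_le_card (tig1_sub C f a i (insert (p, q) N) hM)
  omega

/-- ROW new. If no pair is outside the class: a minimal state in which only `i` is in trouble, with
the places `p`, `q`. (`reassign` with `h true i = p`, `h false i = q` and for the other pairs inside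
the class the ends of different unhit edges of `N`: `exists_unhit` leaves at least
`(inside a f).card - 1` edges. `p`, `q` are not connectors by `hits_mem`. `trouble_reassign`:
only `i` is in trouble; it is by `not_adj_of_max`. So the minimum is one and `g` is minimal.) -/
theorem exists_new (C : Core V ι) (f : Slot ι → V) (hf : C.IsMin f) (i : ι)
    (hi : i ∈ C.trouble f) (a : V) (ha : C.cls (f (Sum.inr (i, true))) = C.cls a)
    (hout : C.outside a f = ∅)
    (N : Finset (V × V)) (hN : IsMatching C.adj (C.part a i true) (C.part a i false) N)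
    (hc : (C.inside a f).card + (C.hits (C.cls a) f).card ≤ N.card + 1) (p q : V)
    (hp : p ∈ C.part a i true) (hq : q ∈ C.part a i false) (hpN : p ∉ ends N)
    (hqN : q ∉ ends N) :
    ∃ g, C.IsMin g ∧ C.trouble g = {i} ∧ (∀ o, g (Sum.inl o) = f (Sum.inl o)) ∧
      g (Sum.inr (i, true)) = p ∧ g (Sum.inr (i, false)) = q ∧
      (C.inside a g).card = (C.inside a f).card := by
  classical
  have hiK : i ∈ C.K := ((C.mem_trouble f i).1 hi).1
  have hiJ : i ∈ C.J := C.KJ hiK
  have hmem1 : ∀ e ∈ N, e.1 ∈ ends N := fun e he => by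
    rw [ends, mem_union]
    exact Or.inl (mem_image_of_mem _ he)
  have hmem2 : ∀ e ∈ N, e.2 ∈ ends N := fun e he => by
    rw [ends, mem_union]
    exact Or.inr (mem_image_of_mem _ he)
  -- `i` is inside
  have hins : i ∈ C.inside a f := by
    obtain ⟨h1, h2⟩ := (C.mem_inside _ f i).1 (C.trouble_inside f hf.1 i hi)
    exact (C.mem_inside a f i).2 ⟨h1, fun b => by rw [← ha]; exact h2 b⟩
  -- `p` and `q` are not connectors
  have hpo : ∀ o ∈ C.O, f (Sum.inl o) ≠ p := by
    intro o ho h
    apply hpN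
    rw [← h]
    refine C.hits_mem f hf i hi a ha N hN hc o ho ?_
    rw [h]
    exact ((C.mem_part a i true p).1 hp).1
  have hqo : ∀ o ∈ C.O, f (Sum.inl o) ≠ q := by
    intro o ho h
    apply hqN
    rw [← h]
    refine C.hits_mem f hf i hi a ha N hN hc o ho ?_
    rw [h]
    exact ((C.mem_part a i false q).1 hq).1
  -- the unhit edges
  obtain ⟨M', hM'N, hM'o, hM'c⟩ := C.exists_unhit f a i N hN
  have hhits : (C.hits (ends N) f).card ≤ (C.hits (C.cls a) f).card := by
    apply card_le_card
    intro o ho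
    obtain ⟨h3, h4⟩ := (C.mem_hits _ f o).1 ho
    refine (C.mem_hits _ f o).2 ⟨h3, ?_⟩
    rw [ends, mem_union, mem_image, mem_image] at h4
    rcases h4 with ⟨e, he, h5⟩ | ⟨e, he, h5⟩
    · rw [← h5]
      exact ((C.mem_part _ _ _ _).1 (hN.mem e he).1).1
    · rw [← h5]
      exact ((C.mem_part _ _ _ _).1 (hN.mem e he).2.1).1
  have hcard : ((C.inside a f).erase i).card ≤ M'.card := by
    rw [card_erase_of_mem hins]
    omega
  obtain ⟨m, hm1, hm2, -⟩ := exists_extension ((C.inside a f).erase i) ∅ M' (empty_subset _)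
    hcard (fun _ => (p, q)) (fun x hx => absurd hx (notMem_empty x))
    (fun x hx => absurd hx (notMem_empty x))
  obtain ⟨h, hdef⟩ : ∃ h : Bool → ι → V, h = fun b j =>
      if j = i then (if b then p else q) else (if b then (m j).1 else (m j).2) := ⟨_, rfl⟩
  have hti : h true i = p := by rw [hdef]; simp
  have hfi : h false i = q := by rw [hdef]; simp
  have htj : ∀ j, j ≠ i → h true j = (m j).1 := fun j hj => by rw [hdef]; simp [hj]
  have hfj : ∀ j, j ≠ i → h false j = (m j).2 := fun j hj => by rw [hdef]; simp [hj]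
  have hmN : ∀ j ∈ C.inside a f, j ≠ i → m j ∈ N := fun j hj hji =>
    hM'N (hm1 j (mem_erase.2 ⟨hji, hj⟩))
  have hh : ∀ b, ∀ j ∈ C.inside a f, h b j ∈ C.part a i b ∧
      ∀ o ∈ C.O, f (Sum.inl o) ≠ h b j := by
    intro b j hj
    by_cases hji : j = i
    · rw [hji]
      cases b with
      | true => rw [hti]; exact ⟨hp, hpo⟩
      | false => rw [hfi]; exact ⟨hq, hqo⟩
    · have h1 := hmN j hj hji
      have h2 := hM'o (m j) (hm1 j (mem_erase.2 ⟨hji, hj⟩))
      cases b with
      | true => rw [htj j hji]; exact ⟨(hN.mem _ h1).1, fun o ho => (h2 o ho).1⟩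
      | false => rw [hfj j hji]; exact ⟨(hN.mem _ h1).2.1, fun o ho => (h2 o ho).2⟩
  have hinj : ∀ b, ∀ j ∈ C.inside a f, ∀ j' ∈ C.inside a f, h b j = h b j' → j = j' := by
    intro b j hj j' hj' hjj
    by_cases hji : j = i
    · by_cases hji' : j' = i
      · rw [hji, hji']
      · exfalso
        have h1 := hmN j' hj' hji'
        rw [hji] at hjj
        cases b with
        | true =>
          rw [hti, htj j' hji'] at hjj
          exact hpN (hjj ▸ hmem1 _ h1)
        | false =>
          rw [hfi, hfj j' hji'] at hjj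
          exact hqN (hjj ▸ hmem2 _ h1)
    · by_cases hji' : j' = i
      · exfalso
        have h1 := hmN j hj hji
        rw [hji'] at hjj
        cases b with
        | true =>
          rw [hti, htj j hji] at hjj
          exact hpN (hjj ▸ hmem1 _ h1)
        | false =>
          rw [hfi, hfj j hji] at hjj
          exact hqN (hjj ▸ hmem2 _ h1)
      · have h1 := hmN j hj hji
        have h2 := hmN j' hj' hji'
        refine hm2 j (mem_erase.2 ⟨hji, hj⟩) j' (mem_erase.2 ⟨hji', hj'⟩) ?_
        cases b with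
        | true =>
          rw [htj j hji, htj j' hji'] at hjj
          exact hN.inj1 _ h1 _ h2 hjj
        | false =>
          rw [hfj j hji, hfj j' hji'] at hjj
          exact hN.inj2 _ h1 _ h2 hjj
  obtain ⟨g, hg, hgo, hg1, hg2⟩ := C.reassign f hf.1 a i hiJ h hh hinj
  have hsub : C.trouble g ⊆ {i} := by
    intro j hj
    rw [mem_singleton]
    by_contra hji
    rcases C.trouble_reassign f g hf.1 hg a i hiJ h (fun b j hj => (hh b j hj).1) hg1 hg2 j hj
      with ⟨h1, h2⟩ | ⟨h1, -⟩
    · apply h2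
      rw [htj j hji, hfj j hji]
      exact (hN.mem _ (hmN j h1 hji)).2.2
    · rw [hout] at h1
      exact absurd h1 (notMem_empty _)
  have hfpos : 1 ≤ (C.trouble f).card := card_pos.2 ⟨i, hi⟩
  have hfg : (C.trouble f).card ≤ (C.trouble g).card := hf.2 g hg
  have htg : C.trouble g = {i} := by
    refine eq_of_subset_of_card_le hsub ?_
    rw [card_singleton]
    exact le_trans hfpos hfg
  have hgcard : (C.trouble g).card = 1 := by rw [htg, card_singleton]
  have hsp : C.sd p i = true := ((C.mem_part a i true p).1 hp).2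
  have hsq : C.sd q i = false := ((C.mem_part a i false q).1 hq).2
  refine ⟨g, ⟨hg, fun g' hg' => ?_⟩, htg, hgo, ?_, ?_, ?_⟩
  · rw [hgcard]
    exact le_trans hfpos (hf.2 g' hg')
  · have h1 := hg1 i hins true
    rw [hti, hsp] at h1
    exact h1
  · have h1 := hg1 i hins false
    rw [hfi, hsq] at h1
    exact h1
  · congr 1
    ext j
    constructor
    · intro hj
      obtain ⟨hjK, hjg⟩ := (C.mem_inside a g j).1 hj
      by_contra hjf
      apply hjf
      refine (C.mem_inside a f j).2 ⟨hjK, fun b => ?_⟩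
      by_contra hb
      have h1 := (hg2 j hjK hjf b).2 hb
      apply hb
      rw [← h1]
      exact hjg b
    · intro hj
      obtain ⟨hjK, -⟩ := (C.mem_inside a f j).1 hj
      have hjJ : j ∈ C.J := C.KJ hjK
      obtain ⟨h1, h2⟩ := (C.mem_part a i true _).1 (hh true j hj).1
      obtain ⟨h3, h4⟩ := (C.mem_part a i false _).1 (hh false j hj).1
      have hne : C.sd (h true j) j ≠ C.sd (h false j) j :=
        C.other_side a _ _ h1 h3 i hiJ (by rw [h2, h4]; decide) j hjJ
      have h5 := hg1 j hj true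
      have h6 := hg1 j hj false
      refine (C.mem_inside a g j).2 ⟨hjK, fun b => ?_⟩
      by_cases hb : C.sd (h true j) j = b
      · rw [hb] at h5
        rw [h5]
        exact h1
      · have key : ∀ x y b : Bool, x ≠ y → x ≠ b → y = b := by decide
        have hb' : C.sd (h false j) j = b := key _ _ _ hne hb
        rw [hb'] at h6
        rw [h6]
        exact h3

/-- ROW swa. Exchange of the place `(i, b)` with a connector. (`g' = g ∘ Equiv.swap (inl o) (inr (i, b))`
is a state, at most `i` is in trouble, so by minimality exactly `i`, and `g'` is minimal. The place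
`(i, !b)` has not changed, so `g' (inr (i, b)) = g (inl o)` is in `cls a` by `trouble_inside`.
`inside a g' = inside a g`, `hits (cls a) g' = hits (cls a) g`, `o` is in it but not in
`hits (ends N) g'`: `matching_bound` for `g'`.) -/
theorem swap_false (C : Core V ι) (g : Slot ι → V) (hg : C.IsMin g) (i : ι)
    (ht : C.trouble g = {i}) (a : V) (ha : C.cls (g (Sum.inr (i, true))) = C.cls a)
    (N : Finset (V × V)) (hN : IsMatching C.adj (C.part a i true) (C.part a i false) N)
    (hc : (C.inside a g).card + (C.hits (C.cls a) g).card ≤ N.card + 1) (b : Bool)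
    (hb : g (Sum.inr (i, b)) ∉ ends N) (o : ι) (ho : o ∈ C.O)
    (hcon : C.con o (g (Sum.inr (i, b)))) (hs : C.sd (g (Sum.inl o)) i = b) : False := by
  classical
  have hit : i ∈ C.trouble g := by rw [ht]; exact mem_singleton_self i
  have hiK : i ∈ C.K := ((C.mem_trouble g i).1 hit).1
  have hso : Sum.inl o ∈ C.slots := (C.mem_slots_inl o).2 ho
  have hsi : Sum.inr (i, b) ∈ C.slots := (C.mem_slots_inr i b).2 hiK
  obtain ⟨σ, hσ⟩ : ∃ σ : Equiv.Perm (Slot ι), σ = Equiv.swap (Sum.inl o) (Sum.inr (i, b)) :=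
    ⟨_, rfl⟩
  obtain ⟨g', hg'⟩ : ∃ g' : Slot ι → V, g' = fun s => g (σ s) := ⟨_, rfl⟩
  have e1 : g' (Sum.inl o) = g (Sum.inr (i, b)) := by
    rw [hg', hσ]; simp only [Equiv.swap_apply_left]
  have e2 : g' (Sum.inr (i, b)) = g (Sum.inl o) := by
    rw [hg', hσ]; simp only [Equiv.swap_apply_right]
  have e3 : ∀ s : Slot ι, s ≠ Sum.inl o → s ≠ Sum.inr (i, b) → g' s = g s := by
    intro s h1 h2
    rw [hg', hσ]
    simp only [Equiv.swap_apply_of_ne_of_ne h1 h2]
  have hσs : ∀ s ∈ C.slots, σ s ∈ C.slots := by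
    intro s hsl
    by_cases h1 : s = Sum.inl o
    · rw [h1, hσ, Equiv.swap_apply_left]; exact hsi
    · by_cases h2 : s = Sum.inr (i, b)
      · rw [h2, hσ, Equiv.swap_apply_right]; exact hso
      · rw [hσ, Equiv.swap_apply_of_ne_of_ne h1 h2]; exact hsl
  have hst : C.IsState g' := by
    refine ⟨?_, ?_, ?_, ?_⟩
    · intro s hsl
      rw [hg']
      exact hg.1.mem _ (hσs s hsl)
    · intro s hsl s' hsl' h
      rw [hg'] at h
      exact σ.injective (hg.1.inj _ (hσs s hsl) _ (hσs s' hsl') h)
    · intro o' ho'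
      by_cases h1 : o' = o
      · rw [h1, e1]; exact hcon
      · rw [e3 (Sum.inl o') (fun h => h1 (Sum.inl.inj h)) (fun h => by cases h)]
        exact hg.1.con o' ho'
    · intro i' hi' b'
      by_cases h1 : (i', b') = (i, b)
      · have h2 : i' = i := congrArg Prod.fst h1
        have h3 : b' = b := congrArg Prod.snd h1
        rw [h2, h3, e2]
        exact hs
      · rw [e3 (Sum.inr (i', b')) (fun h => by cases h) (fun h => h1 (Sum.inr.inj h))]
        exact hg.1.side i' hi' b'
  have hne : ∀ i' : ι, i' ≠ i → ∀ b', g' (Sum.inr (i', b')) = g (Sum.inr (i', b')) := by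
    intro i' h b'
    exact e3 _ (fun h' => by cases h') (fun h' => h (congrArg Prod.fst (Sum.inr.inj h')))
  have htsub : C.trouble g' ⊆ {i} := by
    intro i' hi'
    rw [mem_singleton]
    by_contra h
    obtain ⟨h1, h2⟩ := (C.mem_trouble g' i').1 hi'
    rw [hne i' h true, hne i' h false] at h2
    have h3 : i' ∈ C.trouble g := (C.mem_trouble g i').2 ⟨h1, h2⟩
    rw [ht, mem_singleton] at h3
    exact h h3
  have hcard1 : (C.trouble g).card = 1 := by rw [ht, card_singleton]
  have hcard2 : (C.trouble g').card ≤ 1 := by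
    have := card_le_card htsub
    rwa [card_singleton] at this
  have hcard3 := hg.2 g' hst
  have hcard4 : (C.trouble g').card = 1 := by omega
  have ht' : C.trouble g' = {i} := by
    apply eq_of_subset_of_card_le htsub
    rw [card_singleton, hcard4]
  have hmin' : C.IsMin g' := ⟨hst, fun h hh => by
    have := hg.2 h hh
    omega⟩
  have hit' : i ∈ C.trouble g' := by rw [ht']; exact mem_singleton_self i
  have hin := ((C.mem_inside _ g i).1 (C.trouble_inside g hg.1 i hit)).2
  have hin' := ((C.mem_inside _ g' i).1 (C.trouble_inside g' hst i hit')).2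
  have hnb : g' (Sum.inr (i, !b)) = g (Sum.inr (i, !b)) := by
    apply e3 _ (fun h' => by cases h')
    intro h
    have h1 : (!b) = b := congrArg Prod.snd (Sum.inr.inj h)
    cases b <;> simp at h1
  have ha' : C.cls (g' (Sum.inr (i, true))) = C.cls a := by
    have h1 := hin' (!b)
    rw [hnb] at h1
    have h2 := hin (!b)
    rw [← C.cls_eq _ _ h1, C.cls_eq _ _ h2, ha]
  have hgo : g (Sum.inl o) ∈ C.cls a := by
    have h1 := hin' b
    rw [e2, ha'] at h1
    exact h1
  have hgi : ∀ b', g (Sum.inr (i, b')) ∈ C.cls a := by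
    intro b'
    rw [← ha]
    exact hin b'
  have hgi' : ∀ b', g' (Sum.inr (i, b')) ∈ C.cls a := by
    intro b'
    rw [← ha']
    exact hin' b'
  have hinside : C.inside a g' = C.inside a g := by
    ext i'
    rw [C.mem_inside, C.mem_inside]
    by_cases h : i' = i
    · rw [h]
      exact ⟨fun _ => ⟨hiK, hgi⟩, fun _ => ⟨hiK, hgi'⟩⟩
    · constructor
      · rintro ⟨h1, h2⟩
        exact ⟨h1, fun b' => by rw [← hne i' h b']; exact h2 b'⟩
      · rintro ⟨h1, h2⟩
        exact ⟨h1, fun b' => by rw [hne i' h b']; exact h2 b'⟩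
  have hhits : C.hits (C.cls a) g' = C.hits (C.cls a) g := by
    ext o'
    rw [C.mem_hits, C.mem_hits]
    by_cases h : o' = o
    · rw [h, e1]
      exact ⟨fun _ => ⟨ho, hgo⟩, fun _ => ⟨ho, hgi b⟩⟩
    · rw [e3 (Sum.inl o') (fun h' => h (Sum.inl.inj h')) (fun h' => by cases h')]
  have hends : ∀ v, v ∈ ends N → v ∈ C.cls a := by
    intro v hv
    rw [ends, mem_union, mem_image, mem_image] at hv
    rcases hv with ⟨e, he, h5⟩ | ⟨e, he, h5⟩
    · rw [← h5]
      exact ((C.mem_part _ _ _ _).1 (hN.mem e he).1).1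
    · rw [← h5]
      exact ((C.mem_part _ _ _ _).1 (hN.mem e he).2.1).1
  have hlt : (C.hits (ends N) g').card < (C.hits (C.cls a) g').card := by
    apply card_lt_card
    refine (Finset.ssubset_iff_of_subset ?_).2 ⟨o, ?_, ?_⟩
    · intro o' ho'
      obtain ⟨h3, h4⟩ := (C.mem_hits _ g' o').1 ho'
      exact (C.mem_hits _ g' o').2 ⟨h3, hends _ h4⟩
    · exact (C.mem_hits _ g' o).2 ⟨ho, by rw [e1]; exact hgi b⟩
    · intro h
      obtain ⟨_, h4⟩ := (C.mem_hits _ g' o).1 h
      rw [e1] at h4
      exact hb h4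
  have hmb := C.matching_bound g' hmin' i hit' a ha' N hN
  rw [hinside] at hmb
  rw [hhits] at hlt
  omega

/-- ROW swc. Exchange of both places with two connectors: `g' (inl o1) = g (inr (i, false))`,
`g' (inl o2) = g (inr (i, true))`, `g' (inr (i, true)) = g (inl o1)`,
`g' (inr (i, false)) = g (inl o2)`, that is `g' = g ∘ σ` with a product `σ` of three swaps.
If `g (inl o1) ∈ cls a` then as in `swap_false`; otherwise an unused vertex is in `cls a` by
`unused_mem` for `g` and in `cls (g (inl o1))` by `unused_mem` for `g'` (`used g' = used g`). -/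
theorem swap_both (C : Core V ι) (g : Slot ι → V) (hg : C.IsMin g) (i : ι)
    (ht : C.trouble g = {i}) (a : V) (ha : C.cls (g (Sum.inr (i, true))) = C.cls a)
    (N : Finset (V × V)) (hN : IsMatching C.adj (C.part a i true) (C.part a i false) N)
    (hc : (C.inside a g).card + (C.hits (C.cls a) g).card ≤ N.card + 1)
    (hb : g (Sum.inr (i, false)) ∉ ends N) (o1 o2 : ι) (ho1 : o1 ∈ C.O) (ho2 : o2 ∈ C.O)
    (hne : o1 ≠ o2) (hcon1 : C.con o1 (g (Sum.inr (i, false))))
    (hcon2 : C.con o2 (g (Sum.inr (i, true)))) (hs1 : C.sd (g (Sum.inl o1)) i = true)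
    (hs2 : C.sd (g (Sum.inl o2)) i = false) : ∀ u ∈ C.W, u ∈ C.used g := by
  classical
  intro u hu
  by_contra hun
  have hiT : i ∈ C.trouble g := by
    rw [ht]
    exact Finset.mem_singleton_self i
  have hiK : i ∈ C.K := ((C.mem_trouble g i).1 hiT).1
  have hin : i ∈ C.inside a g := by
    have h := C.trouble_inside g hg.1 i hiT
    rw [C.mem_inside] at h ⊢
    refine ⟨h.1, fun b => ?_⟩
    rw [← ha]
    exact h.2 b
  have hinb := ((C.mem_inside a g i).1 hin).2
  obtain ⟨σ, hσ⟩ : ∃ σ : Equiv.Perm (Slot ι), σ = Equiv.swap (Sum.inl o1) (Sum.inr (i, false)) *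
      Equiv.swap (Sum.inr (i, false)) (Sum.inl o2) * Equiv.swap (Sum.inl o2) (Sum.inr (i, true)) :=
    ⟨_, rfl⟩
  have s1 : σ (Sum.inl o1) = Sum.inr (i, false) := by
    simp [hσ, Equiv.swap_apply_def, hne, hne.symm]
  have s2 : σ (Sum.inl o2) = Sum.inr (i, true) := by
    simp [hσ, Equiv.swap_apply_def, hne, hne.symm]
  have s3 : σ (Sum.inr (i, true)) = Sum.inl o1 := by
    simp [hσ, Equiv.swap_apply_def, hne, hne.symm]
  have s4 : σ (Sum.inr (i, false)) = Sum.inl o2 := by
    simp [hσ, Equiv.swap_apply_def, hne, hne.symm]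
  have s5 : ∀ s : Slot ι, s ≠ Sum.inl o1 → s ≠ Sum.inl o2 → s ≠ Sum.inr (i, true) →
      s ≠ Sum.inr (i, false) → σ s = s := by
    intro s h1 h2 h3 h4
    simp [hσ, Equiv.swap_apply_def, h1, h2, h3, h4]
  have hfix : ∀ i' : ι, i' ≠ i → ∀ b, σ (Sum.inr (i', b)) = Sum.inr (i', b) := fun i' h b =>
    s5 _ (by simp) (by simp) (by simp [h]) (by simp [h])
  have hfixo : ∀ o : ι, o ≠ o1 → o ≠ o2 → σ (Sum.inl o) = Sum.inl o := fun o h1 h2 =>
    s5 _ (by simpa using h1) (by simpa using h2) (by simp) (by simp)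
  have hsl : ∀ s ∈ C.slots, σ s ∈ C.slots := by
    rintro (o | ⟨i', b⟩) hs
    · by_cases h1 : o = o1
      · rw [h1, s1, C.mem_slots_inr]
        exact hiK
      · by_cases h2 : o = o2
        · rw [h2, s2, C.mem_slots_inr]
          exact hiK
        · rw [hfixo o h1 h2]
          exact hs
    · by_cases h1 : i' = i
      · rw [h1]
        cases b
        · rw [s4, C.mem_slots_inl]
          exact ho2
        · rw [s3, C.mem_slots_inl]
          exact ho1
      · rw [hfix i' h1]
        exact hs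
  obtain ⟨g', hg'⟩ : ∃ g' : Slot ι → V, ∀ s, g' s = g (σ s) := ⟨fun s => g (σ s), fun _ => rfl⟩
  have hst : C.IsState g' := by
    refine ⟨fun s hs => ?_, fun s hs s' hs' h => ?_, fun o ho => ?_, fun i' hi' b => ?_⟩
    · rw [hg']
      exact hg.1.mem _ (hsl s hs)
    · rw [hg', hg'] at h
      exact σ.injective (hg.1.inj _ (hsl s hs) _ (hsl s' hs') h)
    · rw [hg']
      by_cases h1 : o = o1
      · rw [h1, s1]
        exact hcon1
      · by_cases h2 : o = o2
        · rw [h2, s2]
          exact hcon2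
        · rw [hfixo o h1 h2]
          exact hg.1.con o ho
    · rw [hg']
      by_cases h1 : i' = i
      · rw [h1]
        cases b
        · rw [s4]
          exact hs2
        · rw [s3]
          exact hs1
      · rw [hfix i' h1]
        exact hg.1.side i' hi' b
  have hsub : C.trouble g' ⊆ {i} := by
    intro i' hi'
    rw [Finset.mem_singleton]
    by_contra h
    rw [C.mem_trouble, hg', hg', hfix i' h, hfix i' h, ← C.mem_trouble, ht,
      Finset.mem_singleton] at hi'
    exact h hi'
  have htr : C.trouble g' = {i} := by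
    have h5 := hg.2 _ hst
    rw [ht, Finset.card_singleton] at h5
    refine Finset.eq_of_subset_of_card_le hsub ?_
    rw [Finset.card_singleton]
    exact h5
  have hmin : C.IsMin g' := ⟨hst, fun h hh => by
    rw [htr, ← ht]
    exact hg.2 h hh⟩
  have hiT' : i ∈ C.trouble g' := by
    rw [htr]
    exact Finset.mem_singleton_self i
  have e1 : g' (Sum.inr (i, true)) = g (Sum.inl o1) := by rw [hg', s3]
  have e2 : g' (Sum.inr (i, false)) = g (Sum.inl o2) := by rw [hg', s4]
  have e3 : g' (Sum.inl o1) = g (Sum.inr (i, false)) := by rw [hg', s1]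
  have e4 : g' (Sum.inl o2) = g (Sum.inr (i, true)) := by rw [hg', s2]
  by_cases hcl : g (Sum.inl o1) ∈ C.cls a
  · have hcls : C.cls (g' (Sum.inr (i, true))) = C.cls a := by
      rw [e1]
      exact C.cls_eq a _ hcl
    have hin' : i ∈ C.inside a g' := by
      have h := C.trouble_inside g' hst i hiT'
      rw [C.mem_inside] at h ⊢
      refine ⟨h.1, fun b => ?_⟩
      rw [← hcls]
      exact h.2 b
    have hinb' := ((C.mem_inside a g' i).1 hin').2
    have hins : C.inside a g' = C.inside a g := by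
      ext i'
      by_cases h : i' = i
      · rw [h]
        exact ⟨fun _ => hin, fun _ => hin'⟩
      · rw [C.mem_inside, C.mem_inside]
        simp only [hg', hfix i' h]
    have hhit : C.hits (C.cls a) g' = C.hits (C.cls a) g := by
      ext o
      rw [C.mem_hits, C.mem_hits]
      by_cases h1 : o = o1
      · rw [h1, e3]
        exact ⟨fun h => ⟨h.1, hcl⟩, fun h => ⟨h.1, hinb false⟩⟩
      · by_cases h2 : o = o2
        · rw [h2, e4]
          refine ⟨fun h => ⟨h.1, ?_⟩, fun h => ⟨h.1, hinb true⟩⟩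
          rw [← e2]
          exact hinb' false
        · rw [hg', hfixo o h1 h2]
    have hmb := C.matching_bound g' hmin i hiT' a hcls N hN
    have hends : ends N ⊆ C.cls a := by
      intro w hw
      rw [ends, Finset.mem_union, Finset.mem_image, Finset.mem_image] at hw
      rcases hw with ⟨e, he, rfl⟩ | ⟨e, he, rfl⟩
      · exact ((C.mem_part a i true _).1 (hN.mem e he).1).1
      · exact ((C.mem_part a i false _).1 (hN.mem e he).2.1).1
    have hlt : C.hits (ends N) g' ⊂ C.hits (C.cls a) g' := by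
      rw [Finset.ssubset_iff_of_subset]
      · refine ⟨o1, ?_, ?_⟩
        · rw [C.mem_hits, e3]
          exact ⟨ho1, hinb false⟩
        · rw [C.mem_hits, e3]
          exact fun h => hb h.2
      · intro o ho
        rw [C.mem_hits] at ho ⊢
        exact ⟨ho.1, hends ho.2⟩
    have h6 := Finset.card_lt_card hlt
    rw [hhit] at h6
    rw [hins] at hmb
    omega
  · have h7 : u ∈ C.cls a := by
      rw [← ha]
      exact C.unused_mem g hg i hiT u hu hun
    have hun' : u ∉ C.used g' := by
      intro h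
      obtain ⟨s, hs, hs'⟩ := (C.mem_used g' u).1 h
      apply hun
      rw [C.mem_used]
      refine ⟨σ s, hsl s hs, ?_⟩
      rw [← hg', hs']
    have h8 := C.unused_mem g' hmin i hiT' u hu hun'
    rw [e1] at h8
    apply hcl
    rw [← C.cls_eq a u h7, C.cls_eq _ u h8]
    exact C.cls_self (hg.1.mem _ ((C.mem_slots_inl o1).2 ho1))

/-- The abstract theorem. -/
theorem main (C : Core V ι) (h0 : ∃ f, C.IsState f)
    (hW : C.W.card = C.O.card + 2 * C.K.card → C.O = ∅ ∧ ∀ a ∈ C.W, C.cls a = C.W)
    (hG : ∀ i ∈ C.K, ∀ a ∈ C.W,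
      (∃ M, IsMatching C.adj (C.part a i true) (C.part a i false) M ∧
        C.O.card + C.K.card + (C.cls a).card ≤ M.card + C.W.card) ∨
      (∃ N p q o1 o2, IsMatching C.adj (C.part a i true) (C.part a i false) N ∧
        p ∈ C.part a i true ∧ q ∈ C.part a i false ∧ p ∉ ends N ∧ q ∉ ends N ∧
        o1 ∈ C.O ∧ o2 ∈ C.O ∧ o1 ≠ o2 ∧ C.con o1 q ∧ C.con o2 p ∧
        C.O.card + C.K.card + (C.cls a).card ≤ N.card + C.W.card + 1)) :
    ∃ f, C.IsState f ∧ C.trouble f = ∅ := by
  classical
  obtain ⟨f, hf⟩ : ∃ f, C.IsMin f := by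
    obtain ⟨f0, hf0⟩ := h0
    let P : ℕ → Prop := fun n => ∃ f, C.IsState f ∧ (C.trouble f).card = n
    have hP : ∃ n, P n := ⟨_, f0, hf0, rfl⟩
    obtain ⟨f, hf, hfn⟩ := Nat.find_spec hP
    exact ⟨f, hf, fun g hg => by
      rw [hfn]
      exact Nat.find_min' hP ⟨g, hg, rfl⟩⟩
  refine ⟨f, hf.1, ?_⟩
  by_contra hne
  obtain ⟨i, hi⟩ := nonempty_iff_ne_empty.2 hne
  obtain ⟨a, ha⟩ : ∃ a, a = f (Sum.inr (i, true)) := ⟨_, rfl⟩
  have hiK : i ∈ C.K := ((C.mem_trouble f i).1 hi).1
  have haW : a ∈ C.W := by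
    rw [ha]
    exact hf.1.mem _ ((C.mem_slots_inr i true).2 hiK)
  have hcls : C.cls (f (Sum.inr (i, true))) = C.cls a := by rw [ha]
  have hsub : C.cls a ⊆ C.W := fun w hw => ((C.mem_cls a w).1 hw).1
  have hcard : (C.W \ C.cls a).card + (C.cls a).card = C.W.card :=
    card_sdiff_add_card_eq_card hsub
  have hcount := C.count_out f hf.1 a (fun u hu hun => by
    rw [← hcls]
    exact C.unused_mem f hf i hi u hu hun)
  -- nothing is outside the class
  have hout : C.outside a f = ∅ := by
    by_contra hne'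
    have hne2 := nonempty_iff_ne_empty.2 hne'
    have hall := C.all_used f hf i hi (by rw [← ha]; exact hne2)
    obtain ⟨_, h3⟩ := hW (C.count_all f hf.1 hall)
    obtain ⟨i', hi'⟩ := hne2
    obtain ⟨h4, h5⟩ := (C.mem_outside a f i').1 hi'
    apply h5 true
    rw [h3 a haW]
    exact hf.1.mem _ ((C.mem_slots_inr i' true).2 h4)
  rw [hout, card_empty] at hcount
  rcases hG i hiK a haW with ⟨M, hM, hMc⟩ | ⟨N, p, q, o1, o2, hN, hp, hq, hpN, hqN, ho1, ho2, hne12,
    hc1, hc2, hNc⟩
  · have h1 := C.matching_bound f hf i hi a hcls M hM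
    have h2 : (C.hits (ends M) f).card ≤ (C.hits (C.cls a) f).card := by
      apply card_le_card
      intro o ho
      obtain ⟨h3, h4⟩ := (C.mem_hits _ f o).1 ho
      refine (C.mem_hits _ f o).2 ⟨h3, ?_⟩
      rw [ends, mem_union, mem_image, mem_image] at h4
      rcases h4 with ⟨e, he, h5⟩ | ⟨e, he, h5⟩
      · rw [← h5]
        exact ((C.mem_part _ _ _ _).1 (hM.mem e he).1).1
      · rw [← h5]
        exact ((C.mem_part _ _ _ _).1 (hM.mem e he).2.1).1
    omega
  · have hc : (C.inside a f).card + (C.hits (C.cls a) f).card ≤ N.card + 1 := by omega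
    obtain ⟨g, hg, htg, hgo, hgp, hgq, hgi⟩ :=
      C.exists_new f hf i hi a hcls hout N hN hc p q hp hq hpN hqN
    have hclp : C.cls p = C.cls a := C.cls_eq a p ((C.mem_part _ _ _ _).1 hp).1
    have hag : C.cls (g (Sum.inr (i, true))) = C.cls a := by rw [hgp, hclp]
    have hhits : C.hits (C.cls a) g = C.hits (C.cls a) f := by
      ext o
      rw [C.mem_hits, C.mem_hits, hgo]
    have hcg : (C.inside a g).card + (C.hits (C.cls a) g).card ≤ N.card + 1 := by
      rw [hgi, hhits]
      exact hc
    cases hs1 : C.sd (g (Sum.inl o1)) i with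
    | false =>
      exact C.swap_false g hg i htg a hag N hN hcg false (by rw [hgq]; exact hqN) o1 ho1
        (by rw [hgq]; exact hc1) hs1
    | true =>
      cases hs2 : C.sd (g (Sum.inl o2)) i with
      | true =>
        exact C.swap_false g hg i htg a hag N hN hcg true (by rw [hgp]; exact hpN) o2 ho2
          (by rw [hgp]; exact hc2) hs2
      | false =>
        have hall := C.swap_both g hg i htg a hag N hN hcg (by rw [hgq]; exact hqN) o1 o2 ho1 ho2
          hne12 (by rw [hgq]; exact hc1) (by rw [hgp]; exact hc2) hs1 hs2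
        have h1 := (hW (C.count_all g hg.1 hall)).1
        rw [h1] at ho1
        exact absurd ho1 (notMem_empty _)

end Core

end Kal
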